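import Pool.Agent.helper90.P2.COREc

set_option autoImplicit false
set_option linter.unusedVariables false

open scoped ContDiff Topology
open MeasureTheory Filter Set Metric

namespace Pool.Agent.P2

theorem CORE_lev {g : ℂ × ℂ → ℝ} {p : ℂ × ℂ} (hg : ContDiffAt ℝ 2 g p) (a : ℂ × ℂ) :
    lev g p a = (1 / 4) * (iteratedFDeriv ℝ 2 g p ![a, a] + iteratedFDeriv ℝ 2 g p ![Complex.I • a, Complex.I • a]) := by
  have hgp : ContDiffAt ℝ 2 g (p + (0 : ℂ) • a) := by simpa using hg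
  have hline : ContDiff ℝ ∞ (fun t : ℂ => p + t • a) := contDiff_const.add (contDiff_id.smul contDiff_const)
  have hh : ContDiffAt ℝ 2 (fun t : ℂ => g (p + t • a)) 0 :=
    ContDiffAt.comp (g := g) (f := fun t : ℂ => p + t • a) (0 : ℂ) hgp (hline.contDiffAt.of_le (by norm_cast))
  have hev : ∀ᶠ q in 𝓝 p, DifferentiableAt ℝ g q := by
    have h1 := hg.eventually (by simp)
    filter_upwards [h1] with q hq
    exact hq.differentiableAt (by simp)
  have key : ∀ v : ℂ, iteratedFDeriv ℝ 2 (fun t : ℂ => g (p + t • a)) 0 ![v, v] = iteratedFDeriv ℝ 2 g p ![v • a, v • a] := by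
    intro v
    have g1 := CORE_dd (V := ℂ) hh v
    have g2 := CORE_dd (V := ℂ × ℂ) hg (v • a)
    have hc : ContinuousAt (fun x : ℝ => p + x • (v • a)) 0 := by fun_prop
    have hev2 : ∀ᶠ x in 𝓝 (0 : ℝ), DifferentiableAt ℝ g (p + x • (v • a)) := by
      apply hc.eventually
      simpa using hev
    have hee : (fun x : ℝ => fderiv ℝ (fun t : ℂ => g (p + t • a)) (0 + x • v) v) =ᶠ[𝓝 0] (fun x : ℝ => fderiv ℝ g (p + x • (v • a)) (v • a)) := by
      filter_upwards [hev2] with x hx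
      have e1 : p + (0 + x • v) • a = p + x • (v • a) := by
        rw [zero_add, smul_assoc]
      have h3 : HasFDerivAt (fun t : ℂ => p + t • a) ((ContinuousLinearMap.toSpanSingleton ℂ a).restrictScalars ℝ) (0 + x • v) := by
        have := ((ContinuousLinearMap.toSpanSingleton ℂ a).restrictScalars ℝ).hasFDerivAt (x := 0 + x • v)
        exact this.const_add p
      have h4 : HasFDerivAt g (fderiv ℝ g (p + x • (v • a))) (p + (0 + x • v) • a) := by
        rw [e1]
        exact hx.hasFDerivAt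
      have h5 := h4.comp (0 + x • v) h3
      have h6 : fderiv ℝ (fun t : ℂ => g (p + t • a)) (0 + x • v) = _ := h5.fderiv
      rw [h6]
      simp
    exact (g1.congr_of_eventuallyEq hee.symm).unique g2
  rw [lev, lap, key 1, key Complex.I, one_smul]

theorem CORE_D2cont {g : ℂ × ℂ → ℝ} {A : Set (ℂ × ℂ)} (hA : IsOpen A) (hg : ContDiffOn ℝ ∞ g A) {a : ℂ × ℂ → ℂ × ℂ} (ha : ContinuousOn a A) :
    ContinuousOn (fun p => iteratedFDeriv ℝ 2 g p ![a p, a p]) A := by
  simp only [iteratedFDeriv_two_apply, Matrix.cons_val_zero, Matrix.cons_val_one]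
  have h1 : ContDiffOn ℝ 1 (fderiv ℝ g) A := hg.fderiv_of_isOpen hA (by norm_cast)
  have h2 : ContinuousOn (fderiv ℝ (fderiv ℝ g)) A := h1.continuousOn_fderiv_of_isOpen hA (by norm_num)
  exact (h2.clm_apply ha).clm_apply ha

theorem CORE_levcont {g : ℂ × ℂ → ℝ} {A : Set (ℂ × ℂ)} (hA : IsOpen A) (hg : ContDiffOn ℝ ∞ g A) {a : ℂ × ℂ → ℂ × ℂ} (ha : ContinuousOn a A) :
    ContinuousOn (fun p => lev g p (a p)) A := by
  have h1 := CORE_D2cont hA hg ha
  have h2 := CORE_D2cont hA hg (a := fun p => Complex.I • a p) (ha.const_smul Complex.I)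
  have h3 : ContinuousOn (fun p => (1 / 4) * (iteratedFDeriv ℝ 2 g p ![a p, a p] +
      iteratedFDeriv ℝ 2 g p ![Complex.I • a p, Complex.I • a p])) A := continuousOn_const.mul (h1.add h2)
  apply h3.congr
  intro p hp
  exact CORE_lev ((hg.contDiffAt (hA.mem_nhds hp)).of_le (by norm_cast)) (a p)

theorem CORE_lapcont {E : ℂ → ℝ} (hE : ContDiff ℝ ∞ E) : Continuous (lap E) := by
  have h1 : ContDiff ℝ 1 (fderiv ℝ E) := hE.fderiv_right (by norm_cast)
  have h2 : Continuous (fderiv ℝ (fderiv ℝ E)) := h1.continuous_fderiv (by norm_num)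
  have h3 : lap E = fun z => (1 / 4) * (fderiv ℝ (fderiv ℝ E) z 1 1 + fderiv ℝ (fderiv ℝ E) z Complex.I Complex.I) := by
    funext z
    simp [lap, iteratedFDeriv_two_apply]
  rw [h3]
  exact continuous_const.mul (((h2.clm_apply continuous_const).clm_apply continuous_const).add
    ((h2.clm_apply continuous_const).clm_apply continuous_const))

theorem CORE_lapzero {E : ℂ → ℝ} {z : ℂ} (h : E =ᶠ[𝓝 z] fun _ => 0) : lap E z = 0 := by
  have h1 : iteratedFDeriv ℝ 2 E z = iteratedFDeriv ℝ 2 (fun _ : ℂ => (0 : ℝ)) z := (EventuallyEq.iteratedFDeriv ℝ h 2).eq_of_nhds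
  rw [lap, h1]
  have h2 : iteratedFDeriv ℝ 2 (fun _ : ℂ => (0 : ℝ)) z = 0 := by
    simp
  rw [h2]
  simp

theorem CORE_geo {P Q : ℂ × ℂ → ℂ} {A : Set (ℂ × ℂ)} (hA : IsOpen A) (hP : DifferentiableOn ℂ P A) (hQ : DifferentiableOn ℂ Q A)
    (hn : ∀ p ∈ A, P p ≠ 0 ∨ Q p ≠ 0) :
    ContinuousOn (w1 P Q) A ∧ ContinuousOn (w2 P Q) A ∧ ContinuousOn (om P Q) A := by
  have cP := hP.continuousOn
  have cQ := hQ.continuousOn
  refine ⟨?_, ?_, ?_⟩
  · exact (cQ.mul (CORE_cont1 hA hP)).sub (cP.mul (CORE_cont1 hA hQ))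
  · exact (cQ.mul (CORE_cont2 hA hP)).sub (cP.mul (CORE_cont2 hA hQ))
  · apply ContinuousOn.inv₀
    · apply ContinuousOn.pow
      exact (Complex.continuous_normSq.comp_continuousOn cP).add (Complex.continuous_normSq.comp_continuousOn cQ)
    · intro p hp
      have : 0 < Complex.normSq (P p) + Complex.normSq (Q p) := by
        rcases hn p hp with h | h
        · have := Complex.normSq_pos.2 h
          have := Complex.normSq_nonneg (Q p)
          linarith
        · have := Complex.normSq_pos.2 h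
          have := Complex.normSq_nonneg (P p)
          linarith
      positivity

/-- the pointwise estimate of the cross term -/
theorem CORE_cross {r ε β l dk de e t1 t2 o : ℝ} (hr : 0 < r) (ht : 0 < t1) (hl : 0 < l) (ho : 0 ≤ o) (he : 0 ≤ e) (hde : 0 ≤ de)
    {W1 W2 : ℝ} (hW1 : 0 ≤ W1) (hW2 : 0 ≤ W2) (hdk0 : 0 ≤ dk) (hdk : dk ≤ 4 / t1) :
    dk * (2 * e * de) * W1 * W2 * o ≤ 4 * l * (t1 ^ (β - 2) * (e ^ 2 * (W2 ^ 2 * o))) + 4 / l * (de ^ 2 * (t1 ^ (-β) * (W1 ^ 2 * o))) := by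
  set a := t1 ^ (β / 2 - 1) * e * W2 with ha
  set b := t1 ^ (-(β / 2)) * de * W1 with hb
  have hab : a * b = t1⁻¹ * (e * de * W1 * W2) := by
    have : t1 ^ (β / 2 - 1) * t1 ^ (-(β / 2)) = t1⁻¹ := by
      rw [← Real.rpow_add ht, ← Real.rpow_neg_one]
      congr 1
      ring
    calc a * b = (t1 ^ (β / 2 - 1) * t1 ^ (-(β / 2))) * (e * de * W1 * W2) := by rw [ha, hb]; ring
      _ = _ := by rw [this]
  have ha2 : a ^ 2 = t1 ^ (β - 2) * (e ^ 2 * W2 ^ 2) := by
    have : (t1 ^ (β / 2 - 1)) ^ 2 = t1 ^ (β - 2) := by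
      rw [← Real.rpow_natCast, ← Real.rpow_mul ht.le]
      congr 1
      push_cast
      ring
    rw [ha, mul_pow, mul_pow, this]
    ring
  have hb2 : b ^ 2 = t1 ^ (-β) * (de ^ 2 * W1 ^ 2) := by
    have : (t1 ^ (-(β / 2))) ^ 2 = t1 ^ (-β) := by
      rw [← Real.rpow_natCast, ← Real.rpow_mul ht.le]
      congr 1
      push_cast
      ring
    rw [hb, mul_pow, mul_pow, this]
    ring
  have h1 : 2 * (a * b) ≤ l * a ^ 2 + b ^ 2 / l := by
    have h2 : 0 ≤ (l * a - b) ^ 2 / l := by positivity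
    have h3 : (l * a - b) ^ 2 / l = l * a ^ 2 + b ^ 2 / l - 2 * (a * b) := by
      field_simp
      ring
    linarith
  have h4 : dk * (2 * e * de) * W1 * W2 * o ≤ (4 / t1) * (2 * e * de) * W1 * W2 * o := by
    gcongr
  have h5 : (4 / t1) * (2 * e * de) * W1 * W2 * o = 4 * o * (2 * (a * b)) := by
    rw [hab]
    field_simp
  have h6 : 4 * o * (2 * (a * b)) ≤ 4 * o * (l * a ^ 2 + b ^ 2 / l) := by
    gcongr
  have h7 : 4 * o * (l * a ^ 2 + b ^ 2 / l) = 4 * l * (t1 ^ (β - 2) * (e ^ 2 * (W2 ^ 2 * o))) + 4 / l * (de ^ 2 * (t1 ^ (-β) * (W1 ^ 2 * o))) := by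
    rw [ha2, hb2]
    field_simp
  linarith

/-- the kernel against a power -/
theorem CORE_log {r t β : ℝ} (hr : 0 < r) (ht : 0 < t) (hβ : 0 < β) : max (Real.log (r / t)) 0 ≤ r ^ β / β * t ^ (-β) := by
  apply max_le
  · have h := Real.log_le_rpow_div (div_pos hr ht).le hβ
    rw [Real.div_rpow hr.le ht.le, div_div] at h
    calc Real.log (r / t) ≤ _ := h
      _ = _ := by
        rw [Real.rpow_neg ht.le]
        field_simp
  · positivity

end Pool.Agent.P2
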