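import Pool.Agent.helper90.P2.COREb

set_option autoImplicit false
set_option linter.unusedVariables false

open scoped ContDiff Topology
open MeasureTheory Filter Set Metric

namespace Pool.Agent.P2

theorem CORE_bmp_cont : Continuous bmp := by
  have h : Continuous (fun s : ℂ => 2 - 4 * Complex.normSq s) := by
    have := Complex.continuous_normSq
    fun_prop
  exact Real.smoothTransition.continuous.comp h

theorem CORE_bmp_nonneg (s : ℂ) : 0 ≤ bmp s := Real.smoothTransition.nonneg _

theorem CORE_bmp_zero {s : ℂ} (hs : 1 ≤ ‖s‖) : bmp s = 0 := by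
  apply Real.smoothTransition.zero_of_nonpos
  rw [Complex.normSq_eq_norm_sq]
  nlinarith

theorem CORE_bmp_int : Integrable bmp := by
  apply CORE_bmp_cont.integrable_of_hasCompactSupport
  apply HasCompactSupport.intro (isCompact_closedBall (0 : ℂ) 1)
  intro s hs
  apply CORE_bmp_zero
  rw [mem_closedBall_zero_iff, not_le] at hs
  exact hs.le

theorem CORE_bmp_pos : 0 < ∫ t, bmp t := by
  apply CORE_bmp_cont.integral_pos_of_hasCompactSupport_nonneg_nonzero (x := (0 : ℂ))
  · apply HasCompactSupport.intro (isCompact_closedBall (0 : ℂ) 1)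
    intro s hs
    apply CORE_bmp_zero
    rw [mem_closedBall_zero_iff, not_le] at hs
    exact hs.le
  · intro s
    exact CORE_bmp_nonneg s
  · have : bmp 0 = 1 := by
      apply Real.smoothTransition.one_of_one_le
      simp
    rw [this]
    norm_num

theorem CORE_phr_nonneg (r : ℝ) (s : ℂ) : 0 ≤ phr r s := by
  unfold phr
  have := CORE_bmp_pos
  have := CORE_bmp_nonneg ((r : ℂ)⁻¹ * s)
  positivity

theorem CORE_phr_cont (r : ℝ) : Continuous (phr r) := by
  unfold phr
  exact continuous_const.mul (CORE_bmp_cont.comp (continuous_const.mul continuous_id))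

theorem CORE_phr_zero {r : ℝ} (hr : 0 < r) {s : ℂ} (hs : r ≤ ‖s‖) : phr r s = 0 := by
  unfold phr
  rw [CORE_bmp_zero, mul_zero]
  rw [norm_mul, norm_inv, Complex.norm_real, Real.norm_eq_abs, abs_of_pos hr]
  rw [inv_mul_eq_div, le_div_iff₀ hr]
  simpa using hs

theorem CORE_phr_one {r : ℝ} (hr : 0 < r) : ∫ s, phr r s = 1 := by
  unfold phr
  rw [integral_const_mul]
  have h1 : (fun s : ℂ => bmp ((r : ℂ)⁻¹ * s)) = fun s : ℂ => bmp (r⁻¹ • s) := by
    funext s
    congr 1
    rw [Complex.real_smul, Complex.ofReal_inv]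
  rw [h1, Measure.integral_comp_smul]
  rw [Complex.finrank_real_complex]
  have h2 := CORE_bmp_pos.ne'
  have h3 : |((r⁻¹ ^ 2)⁻¹ : ℝ)| = r ^ 2 := by
    rw [inv_pow, inv_inv, abs_of_pos (by positivity)]
  rw [h3, smul_eq_mul]
  field_simp

theorem CORE_moll {J : ℂ → ℝ} (hJ : ContinuousAt J 0) {e : ℕ → ℝ} (he0 : ∀ n, 0 < e n) (he : Tendsto e atTop (𝓝 0))
    (hi : ∀ n, Integrable (fun s => phr (e n) s * J s)) : Tendsto (fun n => ∫ s, phr (e n) s * J s) atTop (𝓝 (J 0)) := by
  rw [Metric.tendsto_atTop]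
  intro δ hδ
  obtain ⟨ρ, hρ, hJρ⟩ := Metric.continuousAt_iff.1 hJ (δ / 2) (half_pos hδ)
  obtain ⟨N, hN⟩ := (Metric.tendsto_atTop.1 he) ρ hρ
  refine ⟨N, fun n hn => ?_⟩
  have hen : e n < ρ := by
    have := hN n hn
    rw [Real.dist_eq, sub_zero, abs_of_pos (he0 n)] at this
    exact this
  have hphi : Integrable (phr (e n)) := by
    apply (CORE_phr_cont (e n)).integrable_of_hasCompactSupport
    apply HasCompactSupport.intro (isCompact_closedBall (0 : ℂ) (e n))
    intro s hs
    apply CORE_phr_zero (he0 n)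
    rw [mem_closedBall_zero_iff, not_le] at hs
    exact hs.le
  have h1 : ∀ s, |phr (e n) s * J s - phr (e n) s * J 0| ≤ phr (e n) s * (δ / 2) := by
    intro s
    rw [← mul_sub, abs_mul, abs_of_nonneg (CORE_phr_nonneg _ _)]
    by_cases hs : ‖s‖ < e n
    · have : dist (J s) (J 0) < δ / 2 := by
        apply hJρ
        rw [dist_zero_right]
        linarith
      rw [Real.dist_eq] at this
      exact mul_le_mul_of_nonneg_left this.le (CORE_phr_nonneg _ _)
    · rw [CORE_phr_zero (he0 n) (not_lt.1 hs)]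
      simp
  have h2 : (∫ s, phr (e n) s * J s) - J 0 = ∫ s, (phr (e n) s * J s - phr (e n) s * J 0) := by
    rw [integral_sub (hi n) (hphi.mul_const _), integral_mul_const, CORE_phr_one (he0 n), one_mul]
  rw [Real.dist_eq, h2]
  calc |∫ s, (phr (e n) s * J s - phr (e n) s * J 0)| ≤ ∫ s, |phr (e n) s * J s - phr (e n) s * J 0| := abs_integral_le_integral_abs
    _ ≤ ∫ s, phr (e n) s * (δ / 2) := by
      apply integral_mono_of_nonneg
      · filter_upwards with s
        exact abs_nonneg _
      · exact hphi.mul_const _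
      · filter_upwards with s
        exact h1 s
    _ = δ / 2 := by rw [integral_mul_const, CORE_phr_one (he0 n), one_mul]
    _ < δ := half_lt_self hδ

end Pool.Agent.P2
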