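import Pool.Agent.helper37.P2.SpecD

/-! Row WRD of P2: averaging over the point and the window. -/

set_option autoImplicit false

open scoped ContDiff Topology
open MeasureTheory Filter Set Metric MvPolynomial Pool.Agent.helper37.QA

namespace Pool.Agent.P2

/-- the block of the pairs -/
def WRD_J (m i : ℕ) : Finset (ℕ × ℕ) :=
  Finset.Ico (2 * i * 2 ^ m) ((2 * i + 1) * 2 ^ m) ×ˢ Finset.Ico ((2 * i + 1) * 2 ^ m) ((2 * i + 2) * 2 ^ m)

theorem WRD_J_card (m i : ℕ) : ((WRD_J m i).card : ℝ) = 4 ^ m := by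
  unfold WRD_J
  rw [Finset.card_product, Nat.card_Ico, Nat.card_Ico]
  have h1 : (2 * i + 1) * 2 ^ m - 2 * i * 2 ^ m = 2 ^ m := by
    rw [add_mul, one_mul, Nat.add_sub_cancel_left]
  have h2 : (2 * i + 2) * 2 ^ m - (2 * i + 1) * 2 ^ m = 2 ^ m := by
    rw [show (2 * i + 2) * 2 ^ m = (2 * i + 1) * 2 ^ m + 2 ^ m by ring, Nat.add_sub_cancel_left]
  rw [h1, h2, ← mul_pow]
  norm_num

theorem WRD_J_mem {m i M : ℕ} (hi : i < 2 ^ (M - m - 1)) (hm : m < M) {p : ℕ × ℕ} (hp : p ∈ WRD_J m i) :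
    p.1 < p.2 ∧ p.2 < 2 ^ M ∧ p.2 - p.1 < 2 ^ (m + 1) := by
  unfold WRD_J at hp
  rw [Finset.mem_product, Finset.mem_Ico, Finset.mem_Ico] at hp
  obtain ⟨⟨h1, h2⟩, h3, h4⟩ := hp
  have h5 : (2 * i + 2) * 2 ^ m ≤ 2 ^ M := by
    have h6 : 2 ^ M = 2 ^ (M - m - 1) * (2 * 2 ^ m) := by
      rw [← pow_succ', ← pow_add]
      congr 1
      omega
    rw [h6]
    have h7 : i + 1 ≤ 2 ^ (M - m - 1) := hi
    calc (2 * i + 2) * 2 ^ m = (i + 1) * (2 * 2 ^ m) := by ring
      _ ≤ 2 ^ (M - m - 1) * (2 * 2 ^ m) := Nat.mul_le_mul_right _ h7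
  refine ⟨by omega, by omega, ?_⟩
  have h8 : (2 * i + 2) * 2 ^ m = 2 * i * 2 ^ m + 2 ^ (m + 1) := by
    rw [pow_succ]
    ring
  omega

theorem WRD_fiber (m i n : ℕ) : ((WRD_J m i).filter (fun p => p.2 - p.1 = n)).card ≤ 2 ^ m := by
  have h1 : ((WRD_J m i).filter (fun p => p.2 - p.1 = n)).card ≤
      (Finset.Ico (2 * i * 2 ^ m) ((2 * i + 1) * 2 ^ m)).card := by
    apply Finset.card_le_card_of_injOn Prod.fst
    · intro p hp
      have h := (Finset.mem_filter.1 (Finset.mem_coe.1 hp)).1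
      unfold WRD_J at h
      exact Finset.mem_coe.2 (Finset.mem_product.1 h).1
    · intro p hp q hq hpq
      obtain ⟨hp1, hp2⟩ := Finset.mem_filter.1 (Finset.mem_coe.1 hp)
      obtain ⟨hq1, hq2⟩ := Finset.mem_filter.1 (Finset.mem_coe.1 hq)
      unfold WRD_J at hp1 hq1
      rw [Finset.mem_product, Finset.mem_Ico, Finset.mem_Ico] at hp1 hq1
      apply Prod.ext hpq
      omega
  rw [Nat.card_Ico, add_mul, one_mul, Nat.add_sub_cancel_left] at h1
  exact h1

theorem WRD_exc (Exc : ℕ → Prop) [DecidablePred Exc] (m i : ℕ) (K : ℝ)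
    (hK : (((Finset.Ico 1 (2 ^ (m + 1))).filter Exc).card : ℝ) ≤ K) :
    (((WRD_J m i).filter (fun p => Exc (p.2 - p.1))).card : ℝ) ≤ 2 ^ m * K := by
  have h1 : ((WRD_J m i).filter (fun p => Exc (p.2 - p.1))).card ≤
      2 ^ m * (((WRD_J m i).filter (fun p => Exc (p.2 - p.1))).image (fun p => p.2 - p.1)).card := by
    apply Finset.card_le_mul_card_image
    intro n _
    refine (Finset.card_le_card ?_).trans (WRD_fiber m i n)
    intro p hp
    rw [Finset.mem_filter] at hp ⊢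
    exact ⟨(Finset.mem_filter.1 hp.1).1, hp.2⟩
  have h2 : (((WRD_J m i).filter (fun p => Exc (p.2 - p.1))).image (fun p => p.2 - p.1)).card ≤
      ((Finset.Ico 1 (2 ^ (m + 1))).filter Exc).card := by
    apply Finset.card_le_card
    intro n hn
    rw [Finset.mem_image] at hn
    obtain ⟨p, hp, rfl⟩ := hn
    obtain ⟨hp1, hp2⟩ := Finset.mem_filter.1 hp
    rw [Finset.mem_filter, Finset.mem_Ico]
    refine ⟨?_, hp2⟩
    unfold WRD_J at hp1
    rw [Finset.mem_product, Finset.mem_Ico, Finset.mem_Ico] at hp1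
    have h8 : (2 * i + 2) * 2 ^ m = 2 * i * 2 ^ m + 2 ^ (m + 1) := by
      rw [pow_succ]
      ring
    omega
  have h3 : ((((WRD_J m i).filter (fun p => Exc (p.2 - p.1))).card : ℕ) : ℝ) ≤
      ((2 ^ m * ((Finset.Ico 1 (2 ^ (m + 1))).filter Exc).card : ℕ) : ℝ) := by
    exact_mod_cast h1.trans (Nat.mul_le_mul_left _ h2)
  rw [Nat.cast_mul, Nat.cast_pow, Nat.cast_ofNat] at h3
  exact h3.trans (mul_le_mul_of_nonneg_left hK (by positivity))

theorem WRD : WRD_stmt := by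
  classical
  intro C hC
  obtain ⟨m0, hm0⟩ : ∃ m0 : ℕ, C * (1 / 2 : ℝ) ^ m0 ≤ 1 / 100 := by
    obtain ⟨n, hn⟩ := exists_pow_lt_of_lt_one (show (0 : ℝ) < 1 / (100 * (C + 1)) by positivity)
      (by norm_num : (1 / 2 : ℝ) < 1)
    refine ⟨n, ?_⟩
    have h1 : (0 : ℝ) ≤ (1 / 2 : ℝ) ^ n := by positivity
    calc C * (1 / 2 : ℝ) ^ n ≤ (C + 1) * (1 / 2 : ℝ) ^ n := by nlinarith
      _ ≤ (C + 1) * (1 / (100 * (C + 1))) := mul_le_mul_of_nonneg_left hn.le (by linarith)
      _ = 1 / 100 := by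
        field_simp
  refine ⟨m0, ?_⟩
  intro M hM C0
  refine ⟨4 * (2 ^ M + C0 + 1), ?_⟩
  intro L hL μ _ E B1 B2 hE hE0 H1 H2
  set T : Finset ℕ := Finset.Ico (C0 + 1) (L - 2 ^ M + 1) with hT
  have hTc : T.card = L - 2 ^ M - C0 := by
    rw [hT, Nat.card_Ico]
    omega
  have hTL : (L : ℝ) ≤ 2 * (T.card : ℝ) := by
    have h1 : L ≤ 2 * T.card := by
      rw [hTc]
      omega
    exact_mod_cast h1
  have hTne : T.Nonempty := by
    rw [← Finset.card_pos, hTc]
    have : 0 < 2 ^ M := by positivity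
    omega
  have hTmem : ∀ t ∈ T, C0 + 1 ≤ t ∧ t + 2 ^ M ≤ L := by
    intro t ht
    rw [hT, Finset.mem_Ico] at ht
    have : 0 < 2 ^ M := by positivity
    omega
  -- numbers
  set b1 : ℕ → ℝ := fun k => (μ (B1 k)).toReal with hb1
  set b2 : ℕ → ℕ → ℝ := fun n k => (μ (B2 n k)).toReal with hb2
  have hb1' : ∀ k, C0 ≤ k → k < L → b1 k ≤ 1 / 100 := by
    intro k h1 h2
    exact ENNReal.toReal_le_of_le_ofReal (by norm_num) (H1 k h1 h2)
  have hb2' : ∀ n k, b2 n k ≤ 1 := by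
    intro n k
    have h1 : μ (B2 n k) ≤ 1 := prob_le_one
    have h2 := ENNReal.toReal_mono ENNReal.one_ne_top h1
    rw [ENNReal.toReal_one] at h2
    exact h2
  have hb20 : ∀ n k, 0 ≤ b2 n k := fun n k => ENNReal.toReal_nonneg
  set Exc : ℕ → Prop := fun n => ¬ ∑ k ∈ Finset.Ico 1 L, μ (B2 n k) ≤ ENNReal.ofReal (1 / 100 * L) with hExc
  have hgood : ∀ n, ¬ Exc n → ∑ k ∈ Finset.Ico 1 L, b2 n k ≤ 1 / 100 * L := by
    intro n hn
    have h1 : ∑ k ∈ Finset.Ico 1 L, μ (B2 n k) ≤ ENNReal.ofReal (1 / 100 * L) := not_not.1 hn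
    have h2 := ENNReal.toReal_le_of_le_ofReal (by positivity) h1
    rw [ENNReal.toReal_sum (fun k _ => measure_ne_top μ _)] at h2
    exact h2
  have hcard : ∀ m, m ≤ 2 ^ M → (((Finset.Ico 1 m).filter Exc).card : ℝ) ≤ 1 / 100 * m + C := by
    intro m hm
    have h1 := H2 m hm
    have h2 : Nat.card {n : ℕ // 1 ≤ n ∧ n < m ∧ ¬ ∑ k ∈ Finset.Ico 1 L, μ (B2 n k) ≤ ENNReal.ofReal (1 / 100 * L)} =
        ((Finset.Ico 1 m).filter Exc).card := by
      rw [← Set.ncard_coe_finset, ← Nat.card_coe_set_eq]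
      have h3 : ((((Finset.Ico 1 m).filter Exc : Finset ℕ)) : Set ℕ) =
          {n : ℕ | 1 ≤ n ∧ n < m ∧ ¬ ∑ k ∈ Finset.Ico 1 L, μ (B2 n k) ≤ ENNReal.ofReal (1 / 100 * L)} := by
        ext n
        simp only [Finset.coe_filter, Finset.mem_Ico, Set.mem_ofPred_eq, hExc, and_assoc]
      rw [h3]
      rfl
    rw [h2] at h1
    exact h1
  -- the sum over the windows
  set G : ℕ → ℕ × ℕ → ℝ := fun t p => b1 (t + p.1) + b1 (t + p.2) + b2 (p.2 - p.1) (t + p.1) with hG
  have hTc0 : (0 : ℝ) ≤ T.card := Nat.cast_nonneg _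
  have hpair : ∀ m ∈ Finset.Ico m0 M, ∀ i ∈ Finset.range (2 ^ (M - m - 1)), ∀ p ∈ WRD_J m i,
      ∑ t ∈ T, G t p ≤ (T.card : ℝ) * (4 / 100) + (T.card : ℝ) * (if Exc (p.2 - p.1) then 1 else 0) := by
    intro m hm i hi p hp
    obtain ⟨hp1, hp2, hp3⟩ := WRD_J_mem (Finset.mem_range.1 hi) (Finset.mem_Ico.1 hm).2 hp
    have h1 : ∀ x : ℕ, x < 2 ^ M → ∑ t ∈ T, b1 (t + x) ≤ (T.card : ℝ) * (1 / 100) := by
      intro x hx
      rw [← nsmul_eq_mul]
      apply Finset.sum_le_card_nsmul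
      intro t ht
      have := hTmem t ht
      exact hb1' _ (by omega) (by omega)
    have h2 : ∑ t ∈ T, b2 (p.2 - p.1) (t + p.1) ≤ (T.card : ℝ) * (2 / 100) + (T.card : ℝ) * (if Exc (p.2 - p.1) then 1 else 0) := by
      split_ifs with hx
      · have h3 : ∑ t ∈ T, b2 (p.2 - p.1) (t + p.1) ≤ (T.card : ℝ) * 1 := by
          rw [← nsmul_eq_mul]
          exact Finset.sum_le_card_nsmul _ _ _ fun t _ => hb2' _ _
        have : 0 ≤ (T.card : ℝ) * (2 / 100) := by positivity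
        linarith
      · have h3 : ∑ t ∈ T, b2 (p.2 - p.1) (t + p.1) ≤ ∑ k ∈ Finset.Ico 1 L, b2 (p.2 - p.1) k := by
          have h4 : ∑ t ∈ T, b2 (p.2 - p.1) (t + p.1) = ∑ k ∈ T.image (fun t => t + p.1), b2 (p.2 - p.1) k := by
            rw [Finset.sum_image]
            intro x _ y _ hxy
            exact Nat.add_right_cancel hxy
          rw [h4]
          apply Finset.sum_le_sum_of_subset_of_nonneg
          · intro k hk
            obtain ⟨t, ht, rfl⟩ := Finset.mem_image.1 hk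
            have := hTmem t ht
            rw [Finset.mem_Ico]
            omega
          · intro k _ _
            exact hb20 _ _
        have h5 := hgood _ hx
        linarith
    have h3 := h1 p.1 (by omega)
    have h4 := h1 p.2 hp2
    have h5 : ∑ t ∈ T, G t p = ∑ t ∈ T, b1 (t + p.1) + ∑ t ∈ T, b1 (t + p.2) + ∑ t ∈ T, b2 (p.2 - p.1) (t + p.1) := by
      rw [hG]
      simp only [Finset.sum_add_distrib]
    rw [h5]
    linarith
  have hblock : ∀ m ∈ Finset.Ico m0 M, ∀ i ∈ Finset.range (2 ^ (M - m - 1)),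
      ∑ p ∈ WRD_J m i, ∑ t ∈ T, G t p ≤ 7 / 100 * (T.card : ℝ) * 4 ^ m := by
    intro m hm i hi
    have hm' := Finset.mem_Ico.1 hm
    have h1 := Finset.sum_le_sum (hpair m hm i hi)
    rw [Finset.sum_add_distrib, Finset.sum_const, nsmul_eq_mul, WRD_J_card, ← Finset.mul_sum] at h1
    have h2 : ∑ p ∈ WRD_J m i, (if Exc (p.2 - p.1) then (1 : ℝ) else 0) =
        (((WRD_J m i).filter (fun p => Exc (p.2 - p.1))).card : ℝ) := by
      rw [Finset.natCast_card_filter]
    rw [h2] at h1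
    have h3 := hcard (2 ^ (m + 1)) (Nat.pow_le_pow_right (by norm_num) (by omega))
    have h4 := WRD_exc Exc m i _ h3
    have h5 : (2 : ℝ) ^ m * (1 / 100 * ((2 ^ (m + 1) : ℕ) : ℝ) + C) ≤ 3 / 100 * 4 ^ m := by
      have h6 : (4 : ℝ) ^ m = 2 ^ m * 2 ^ m := by
        rw [← mul_pow]
        norm_num
      have h7 : ((2 ^ (m + 1) : ℕ) : ℝ) = 2 * 2 ^ m := by
        push_cast
        ring
      rw [h6, h7]
      have h8 : C ≤ 1 / 100 * 2 ^ m := by
        have h9 : (1 / 2 : ℝ) ^ m ≤ (1 / 2 : ℝ) ^ m0 := pow_le_pow_of_le_one (by norm_num) (by norm_num) hm'.1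
        have h10 : C * (1 / 2 : ℝ) ^ m ≤ 1 / 100 := (mul_le_mul_of_nonneg_left h9 hC).trans hm0
        have h11 : (1 / 2 : ℝ) ^ m * 2 ^ m = 1 := by
          rw [← mul_pow]
          norm_num
        have h12 : (0 : ℝ) ≤ 2 ^ m := by positivity
        calc C = C * (1 / 2 : ℝ) ^ m * 2 ^ m := by rw [mul_assoc, h11, mul_one]
          _ ≤ 1 / 100 * 2 ^ m := mul_le_mul_of_nonneg_right h10 h12
      have h12 : (0 : ℝ) ≤ 2 ^ m := by positivity
      nlinarith
    have h6 : (T.card : ℝ) * (((WRD_J m i).filter (fun p => Exc (p.2 - p.1))).card : ℝ) ≤ (T.card : ℝ) * (3 / 100 * 4 ^ m) :=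
      mul_le_mul_of_nonneg_left (h4.trans h5) hTc0
    calc ∑ p ∈ WRD_J m i, ∑ t ∈ T, G t p ≤ _ := h1
      _ ≤ 4 ^ m * ((T.card : ℝ) * (4 / 100)) + (T.card : ℝ) * (3 / 100 * 4 ^ m) := by linarith
      _ = 7 / 100 * (T.card : ℝ) * 4 ^ m := by ring
  -- the functions
  set g : ℕ → ℕ × ℕ → ℂ → ℝ := fun t p z =>
    (toMeasurable μ (B1 (t + p.1))).indicator (fun _ => (1 : ℝ)) z +
    (toMeasurable μ (B1 (t + p.2))).indicator (fun _ => (1 : ℝ)) z +
    (toMeasurable μ (B2 (p.2 - p.1) (t + p.1))).indicator (fun _ => (1 : ℝ)) z with hg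
  have hind : ∀ s : Set ℂ, Integrable ((toMeasurable μ s).indicator (fun _ => (1 : ℝ))) μ := fun s =>
    (integrable_const (1 : ℝ)).indicator (measurableSet_toMeasurable μ s)
  have hindI : ∀ s : Set ℂ, ∫ z, (toMeasurable μ s).indicator (fun _ => (1 : ℝ)) z ∂μ = (μ s).toReal := by
    intro s
    rw [integral_indicator_const (1 : ℝ) (measurableSet_toMeasurable μ s), smul_eq_mul, mul_one, measureReal_def,
      measure_toMeasurable]
  have hgi : ∀ t p, Integrable (g t p) μ := fun t p => ((hind _).add (hind _)).add (hind _)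
  have hgI : ∀ t p, ∫ z, g t p z ∂μ = G t p := by
    intro t p
    simp only [hg, hG]
    rw [integral_add, integral_add, hindI, hindI, hindI]
    · exact hind _
    · exact hind _
    · exact (hind _).add (hind _)
    · exact hind _
  set F : ℕ → ℂ → ℝ := fun t z => ∑ m ∈ Finset.Ico m0 M, (∑ i ∈ Finset.range (2 ^ (M - m - 1)),
    (∑ p ∈ WRD_J m i, g t p z) / 4 ^ m) / 2 ^ (M - m - 1) with hF
  have hFi : ∀ t, Integrable (F t) μ := by
    intro t
    apply integrable_finsetSum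
    intro m _
    apply Integrable.div_const
    apply integrable_finsetSum
    intro i _
    apply Integrable.div_const
    apply integrable_finsetSum
    intro p _
    exact hgi t p
  have hFI : ∀ t, ∫ z, F t z ∂μ = ∑ m ∈ Finset.Ico m0 M, (∑ i ∈ Finset.range (2 ^ (M - m - 1)),
    (∑ p ∈ WRD_J m i, G t p) / 4 ^ m) / 2 ^ (M - m - 1) := by
    intro t
    simp only [hF]
    rw [integral_finsetSum]
    · apply Finset.sum_congr rfl
      intro m _
      rw [integral_div, integral_finsetSum]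
      · congr 1
        apply Finset.sum_congr rfl
        intro i _
        rw [integral_div, integral_finsetSum]
        · congr 1
          exact Finset.sum_congr rfl fun p _ => hgI t p
        · intro p _
          exact hgi t p
      · intro i _
        apply Integrable.div_const
        apply integrable_finsetSum
        intro p _
        exact hgi t p
    · intro m _
      apply Integrable.div_const
      apply integrable_finsetSum
      intro i _
      apply Integrable.div_const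
      apply integrable_finsetSum
      intro p _
      exact hgi t p
  have hsum : ∑ t ∈ T, ∫ z, F t z ∂μ ≤ ∑ t ∈ T, 7 / 100 * ((M : ℝ) - m0) := by
    have h1 : ∑ t ∈ T, ∫ z, F t z ∂μ = ∑ m ∈ Finset.Ico m0 M, (∑ i ∈ Finset.range (2 ^ (M - m - 1)),
        (∑ p ∈ WRD_J m i, ∑ t ∈ T, G t p) / 4 ^ m) / 2 ^ (M - m - 1) := by
      simp only [hFI]
      rw [Finset.sum_comm]
      apply Finset.sum_congr rfl
      intro m _
      rw [← Finset.sum_div]
      congr 1
      rw [Finset.sum_comm]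
      apply Finset.sum_congr rfl
      intro i _
      rw [← Finset.sum_div]
      congr 1
      rw [Finset.sum_comm]
    rw [h1]
    have h2 : ∀ m ∈ Finset.Ico m0 M, (∑ i ∈ Finset.range (2 ^ (M - m - 1)),
        (∑ p ∈ WRD_J m i, ∑ t ∈ T, G t p) / 4 ^ m) / 2 ^ (M - m - 1) ≤ 7 / 100 * (T.card : ℝ) := by
      intro m hm
      rw [div_le_iff₀ (by positivity)]
      have h3 : ∀ i ∈ Finset.range (2 ^ (M - m - 1)),
          (∑ p ∈ WRD_J m i, ∑ t ∈ T, G t p) / 4 ^ m ≤ 7 / 100 * (T.card : ℝ) := by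
        intro i hi
        rw [div_le_iff₀ (by positivity)]
        exact hblock m hm i hi
      have h4 := Finset.sum_le_card_nsmul _ _ _ h3
      rw [Finset.card_range, nsmul_eq_mul, Nat.cast_pow, Nat.cast_ofNat] at h4
      linarith
    have h3 := Finset.sum_le_card_nsmul _ _ _ h2
    rw [Nat.card_Ico, nsmul_eq_mul, Nat.cast_sub hM.le] at h3
    rw [Finset.sum_const, nsmul_eq_mul]
    calc _ ≤ ((M : ℝ) - m0) * (7 / 100 * (T.card : ℝ)) := h3
      _ = (T.card : ℝ) * (7 / 100 * ((M : ℝ) - m0)) := by ring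
  obtain ⟨t0, ht0, hFt⟩ := Finset.exists_le_of_sum_le hTne hsum
  obtain ⟨z, hzE, hz⟩ := exists_notMem_null_le_integral (hFi t0) hE0
  refine ⟨z, not_not.1 hzE, t0, by have := hTmem t0 ht0; omega, (hTmem t0 ht0).2, ?_⟩
  have hMm : (0 : ℝ) < (M : ℝ) - m0 := by
    have : (m0 : ℝ) < M := by exact_mod_cast hM
    linarith
  have hle : ∑ m ∈ Finset.Ico m0 M, (∑ i ∈ Finset.range (2 ^ (M - m - 1)),
        ((((Finset.Ico (2 * i * 2 ^ m) ((2 * i + 1) * 2 ^ m) ×ˢ Finset.Ico ((2 * i + 1) * 2 ^ m) ((2 * i + 2) * 2 ^ m)).filter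
          (fun p => z ∈ B1 (t0 + p.1) ∨ z ∈ B1 (t0 + p.2) ∨ z ∈ B2 (p.2 - p.1) (t0 + p.1))).card : ℝ) / 4 ^ m)) / 2 ^ (M - m - 1) ≤ F t0 z := by
    apply Finset.sum_le_sum
    intro m _
    apply div_le_div_of_nonneg_right _ (by positivity)
    apply Finset.sum_le_sum
    intro i _
    apply div_le_div_of_nonneg_right _ (by positivity)
    rw [Finset.natCast_card_filter]
    apply Finset.sum_le_sum
    intro p _
    have hn : ∀ s : Set ℂ, 0 ≤ (toMeasurable μ s).indicator (fun _ => (1 : ℝ)) z := fun s =>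
      Set.indicator_nonneg (fun _ _ => zero_le_one) z
    have h1 : ∀ s : Set ℂ, z ∈ s → (toMeasurable μ s).indicator (fun _ => (1 : ℝ)) z = 1 := fun s hs =>
      Set.indicator_of_mem (subset_toMeasurable μ s hs) _
    have ha := hn (B1 (t0 + p.1))
    have hb := hn (B1 (t0 + p.2))
    have hc := hn (B2 (p.2 - p.1) (t0 + p.1))
    simp only [hg]
    split_ifs with hcase
    · rcases hcase with h | h | h
      · rw [h1 _ h]
        linarith
      · rw [h1 _ h]
        linarith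
      · rw [h1 _ h]
        linarith
    · linarith
  calc _ ≤ F t0 z := hle
    _ ≤ ∫ z, F t0 z ∂μ := hz
    _ ≤ 7 / 100 * ((M : ℝ) - m0) := hFt
    _ < ((M : ℝ) - m0) / 4 := by linarith

end Pool.Agent.P2
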