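import Pool.Agent.helper90.P2.COREd

set_option autoImplicit false
set_option linter.unusedVariables false

open scoped ContDiff Topology
open MeasureTheory Filter Set Metric

namespace Pool.Agent.P2

theorem CORE_step (hIBP : IBP_stmt) (hKER : KER_stmt) {C0 α β CL MEl Mη : ℝ} {η : ℂ → ℝ} (hβ : 0 < β) (hαβ : α = 2 * β) (hCL : 0 < CL)
    (hη : ContDiff ℝ ∞ η) (hsη : tsupport η ⊆ ball 0 1)
    (hL : ∀ (r : ℝ) (v : ℂ → ℝ), 0 < r → ContDiffOn ℝ ∞ v (ball 0 (4 * r)) →
      (∀ s ∈ ball (0 : ℂ) (4 * r), 0 ≤ lap v s) →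
      (∀ s ∈ ball (0 : ℂ) (4 * r), ∀ s' ∈ ball (0 : ℂ) (4 * r), |v s - v s'| ≤ C0 * ‖s - s'‖ ^ α) →
      ∫⁻ s in ball (0 : ℂ) r, ENNReal.ofReal (‖s‖ ^ (-β) * lap v s) ≤ ENNReal.ofReal (CL * r ^ (α - β)))
    (hMEl : MEl = ∫ z, |lap (fun z => η z ^ 2) z|) (hMη : Mη = ∫ z, ‖fderiv ℝ η z‖ ^ 2)
    {r D w B : ℝ} {P Q : ℂ × ℂ → ℂ} {Ψ : ℂ × ℂ → ℝ} (hr : 0 < r) (hr1 : r ≤ 1) (hD : 0 < D) (hw : 0 < w) (hB : 0 ≤ B)
    (hP : DifferentiableOn ℂ P (ball 0 (4 * r) ×ˢ ball 0 1)) (hQ : DifferentiableOn ℂ Q (ball 0 (4 * r) ×ˢ ball 0 1))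
    (hn : ∀ p ∈ ball (0 : ℂ) (4 * r) ×ˢ ball (0 : ℂ) 1, P p ≠ 0 ∨ Q p ≠ 0)
    (hH : ∀ s ∈ ball (0 : ℂ) (4 * r), ∀ s' ∈ ball (0 : ℂ) (4 * r), ∀ z ∈ ball (0 : ℂ) 1,
        |uu P Q D (s, z) - uu P Q D (s', z)| ≤ C0 * ‖s - s'‖ ^ α)
    (hM : ∀ s ∈ ball (0 : ℂ) r, w * ∫ z, η z ^ 2 * ta P Q D (s, z) ≤ 2)
    (hΨ : ContDiffOn ℝ ∞ Ψ (ball 0 (4 * r) ×ˢ ball 0 1)) (hΨB : ∀ p ∈ ball (0 : ℂ) (4 * r) ×ˢ ball (0 : ℂ) 1, |Ψ p| ≤ B)
    (hlev : ∀ p ∈ ball (0 : ℂ) (4 * r) ×ˢ ball (0 : ℂ) 1, 0 ≤ lev Ψ p (ev P Q p))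
    {ε : ℝ} (hε : 0 < ε) (hεr : ε ≤ r / 8) :
    (1 / 50) * (∫ s in ball (0 : ℂ) (r / 4) \ ball (0 : ℂ) ε, w * ∫ z, η z ^ 2 * (lev Ψ (s, z) (ev P Q (s, z)) * om P Q (s, z) / (2 * D))) +
      (∫ s, phr ε s * (w * ∫ z, η z ^ 2 * (Ψ (s, z) * ta P Q D (s, z)))) ≤
    (∫ s, phr r s * (w * ∫ z, η z ^ 2 * (Ψ (s, z) * ta P Q D (s, z)))) +
      (MEl * CL / β * (w * r ^ α) + (4 * Mη * CL + 16 * Real.pi / β) * (w * r ^ α) ^ (1 / 2 : ℝ)) * B ∧
    Integrable (fun s => phr ε s * (w * ∫ z, η z ^ 2 * (Ψ (s, z) * ta P Q D (s, z)))) := by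
  obtain ⟨K, hK, hKz, hK0, hKlap, hKd, hKl, hKb⟩ := hKER r ε hr hε hεr
  set A : Set (ℂ × ℂ) := ball (0 : ℂ) (4 * r) ×ˢ ball (0 : ℂ) 1 with hAdef
  have hA : IsOpen A := isOpen_ball.prod isOpen_ball
  set E : ℂ → ℝ := fun z => η z ^ 2 with hEdef
  have hE : ContDiff ℝ ∞ E := hη.pow 2
  have hE0 : ∀ z, 0 ≤ E z := fun z => sq_nonneg _
  set k : Set ℂ := tsupport η with hk
  have hkc : IsCompact k := Metric.isCompact_of_isClosed_isBounded (isClosed_tsupport η) (isBounded_ball.subset hsη)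
  have hηz : ∀ z, z ∉ k → η =ᶠ[𝓝 z] fun _ => 0 := by
    intro z hz
    filter_upwards [(isClosed_tsupport η).isOpen_compl.mem_nhds hz] with q hq
    exact image_eq_zero_of_notMem_tsupport hq
  have hEz : ∀ z, z ∉ k → E =ᶠ[𝓝 z] fun _ => 0 := by
    intro z hz
    filter_upwards [hηz z hz] with q hq
    simp [hEdef, hq]
  have hEz0 : ∀ z, z ∉ k → E z = 0 := fun z hz => (hEz z hz).eq_of_nhds
  have hElap : ∀ z, z ∉ k → lap E z = 0 := fun z hz => CORE_lapzero (hEz z hz)
  have hEd : ∀ z, z ∉ k → fderiv ℝ E z = 0 := by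
    intro z hz
    rw [(hEz z hz).fderiv_eq]
    simp
  have hsE : tsupport E ⊆ ball 0 1 := by
    refine subset_trans ?_ hsη
    apply closure_minimal _ (isClosed_tsupport η)
    intro z hz
    by_contra h
    exact hz (hEz0 z h)
  set C : Set (ℂ × ℂ) := closedBall (0 : ℂ) r ×ˢ k with hCdef
  have hC : IsCompact C := (isCompact_closedBall 0 r).prod hkc
  have hCA : C ⊆ A := prod_mono (closedBall_subset_ball (by linarith)) hsη
  obtain ⟨cw1, cw2, com⟩ := CORE_geo hA hP hQ hn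
  have cΨ : ContinuousOn Ψ A := hΨ.continuousOn
  have cev : ContinuousOn (ev P Q) A := cw2.neg.prodMk cw1
  have cG : ContinuousOn (fun p => lev Ψ p (ev P Q p) * om P Q p / (2 * D)) A := ((CORE_levcont hA hΨ cev).mul com).div_const _
  have cT : ContinuousOn (ta P Q D) A := by
    unfold ta
    exact ((continuousOn_const.mul (Complex.continuous_normSq.comp_continuousOn cw2)).mul com).div_const D
  set U : ℂ × ℂ → ℝ := fun p => (1 / 2) * Complex.normSq (w1 P Q p) * om P Q p / D with hU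
  have cU : ContinuousOn U A := ((continuousOn_const.mul (Complex.continuous_normSq.comp_continuousOn cw1)).mul com).div_const D
  have hom : ∀ p, 0 ≤ om P Q p := fun p => inv_nonneg.2 (sq_nonneg _)
  have hT0 : ∀ p, 0 ≤ ta P Q D p := by
    intro p
    unfold ta
    have := hom p
    have := Complex.normSq_nonneg (w2 P Q p)
    positivity
  have hU0 : ∀ p, 0 ≤ U p := by
    intro p
    have := hom p
    have := Complex.normSq_nonneg (w1 P Q p)
    positivity
  set G : ℂ × ℂ → ℝ := fun p => lev Ψ p (ev P Q p) * om P Q p / (2 * D) with hG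
  have hG0 : ∀ p ∈ A, 0 ≤ G p := by
    intro p hp
    have := hom p
    have := hlev p hp
    positivity
  -- the cut-off function
  set κ : ℂ × ℂ → ℝ := fun p => K p.1 * E p.2 with hκ
  have hKout : ∀ s, r < ‖s‖ → K s = 0 := fun s hs => hKz s hs.le
  have hκz : ∀ p, p ∉ C → κ p = 0 := by
    intro p hp
    by_cases h2 : p.2 ∈ k
    · have h1 : p.1 ∉ closedBall (0 : ℂ) r := fun h1 => hp ⟨h1, h2⟩
      rw [mem_closedBall_zero_iff, not_le] at h1
      simp [hκ, hKout _ h1]
    · simp [hκ, hEz0 _ h2]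
  have hκsm : ContDiff ℝ ∞ κ := (hK.comp contDiff_fst).mul (hE.comp contDiff_snd)
  have hκcs : HasCompactSupport κ := HasCompactSupport.intro hC hκz
  have hκts : tsupport κ ⊆ A := by
    refine subset_trans ?_ hCA
    apply closure_minimal _ hC.isClosed
    intro p hp
    by_contra h
    exact hp (hκz p h)
  have hI := hIBP A P Q κ Ψ hA hP hQ hn hκsm hκcs hκts hΨ
  -- pieces
  set f : ℝ → ℂ × ℂ → ℝ := fun ρ p => phr ρ p.1 * (E p.2 * (Ψ p * ta P Q D p)) with hf
  set X : ℂ × ℂ → ℝ := fun p => (1 / 2) * (fderiv ℝ K p.1 (-(w2 P Q p)) * fderiv ℝ E p.2 (w1 P Q p) +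
    fderiv ℝ K p.1 (Complex.I * -(w2 P Q p)) * fderiv ℝ E p.2 (Complex.I * w1 P Q p)) * om P Q p / (2 * D) with hX
  set F : ℂ × ℂ → ℝ := fun p => Ψ p * (K p.1 * lap E p.2 * U p + X p) with hF
  have hDne : D ≠ 0 := hD.ne'
  have hpt1 : ∀ p, Ψ p * lev κ p (ev P Q p) * om P Q p = 2 * D * ((f r p - f ε p) + F p) := by
    intro p
    have h1 : lev κ p (ev P Q p) = _ := CORE_prod hK hE p.1 p.2 (-(w2 P Q p)) (w1 P Q p)
    rw [h1, hKlap, Complex.normSq_neg]
    simp only [hf, hF, hX, hU, ta]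
    field_simp
    ring
  have hpt2 : ∀ p, κ p * lev Ψ p (ev P Q p) * om P Q p = 2 * D * (K p.1 * (E p.2 * G p)) := by
    intro p
    simp only [hκ, hG]
    field_simp
  have hfI : ∀ ρ, 0 < ρ → ρ ≤ r → Integrable (f ρ) := by
    intro ρ hρ hρr
    apply CORE_int hA hC hCA
    · exact ((CORE_phr_cont ρ).comp continuous_fst).continuousOn.mul ((hE.continuous.comp continuous_snd).continuousOn.mul (cΨ.mul cT))
    · intro p hp
      by_cases h2 : p.2 ∈ k
      · have h1 : p.1 ∉ closedBall (0 : ℂ) r := fun h1 => hp ⟨h1, h2⟩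
        rw [mem_closedBall_zero_iff, not_le] at h1
        simp [hf, CORE_phr_zero hρ (hρr.trans h1.le)]
      · simp [hf, hEz0 _ h2]
  have hKfd : ∀ s, r ≤ ‖s‖ → fderiv ℝ K s = 0 := fun s hs => CORE_gradzero hK hK0 (hKz s hs)
  have cKd : Continuous (fderiv ℝ K) := hK.continuous_fderiv (by simp)
  have cEd : Continuous (fderiv ℝ E) := hE.continuous_fderiv (by simp)
  have cX : ContinuousOn X A := by
    have c1 : ContinuousOn (fun p : ℂ × ℂ => fderiv ℝ K p.1) A := (cKd.comp continuous_fst).continuousOn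
    have c2 : ContinuousOn (fun p : ℂ × ℂ => fderiv ℝ E p.2) A := (cEd.comp continuous_snd).continuousOn
    have cI : ContinuousOn (fun _ : ℂ × ℂ => Complex.I) A := continuousOn_const
    exact (((continuousOn_const.mul (((c1.clm_apply cw2.neg).mul (c2.clm_apply cw1)).add
      ((c1.clm_apply (cI.mul cw2.neg)).mul (c2.clm_apply (cI.mul cw1))))).mul com).div_const _)
  have hFz : ∀ p : ℂ × ℂ, (p.2 ∉ k ∨ r ≤ ‖p.1‖) → F p = 0 := by
    intro p hp
    rcases hp with h | h
    · simp [hF, hX, hElap _ h, hEd _ h]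
    · simp [hF, hX, hKz _ h, hKfd _ h]
  have hFI : Integrable F := by
    apply CORE_int hA hC hCA
    · exact cΨ.mul ((((hK.continuous.comp continuous_fst).continuousOn.mul ((CORE_lapcont hE).comp continuous_snd).continuousOn).mul cU).add cX)
    · intro p hp
      apply hFz
      by_cases h2 : p.2 ∈ k
      · right
        have h1 : p.1 ∉ closedBall (0 : ℂ) r := fun h1 => hp ⟨h1, h2⟩
        rw [mem_closedBall_zero_iff, not_le] at h1
        exact h1.le
      · exact Or.inl h2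
  have hKG : Integrable (fun p : ℂ × ℂ => K p.1 * (E p.2 * G p)) := by
    apply CORE_int hA hC hCA
    · exact (hK.continuous.comp continuous_fst).continuousOn.mul ((hE.continuous.comp continuous_snd).continuousOn.mul cG)
    · intro p hp
      by_cases h2 : p.2 ∈ k
      · have h1 : p.1 ∉ closedBall (0 : ℂ) r := fun h1 => hp ⟨h1, h2⟩
        rw [mem_closedBall_zero_iff, not_le] at h1
        simp [hKout _ h1]
      · simp [hEz0 _ h2]
  have hεr' : ε ≤ r := by linarith
  have hmain : (∫ p, f r p) - (∫ p, f ε p) + (∫ p, F p) = ∫ p, K p.1 * (E p.2 * G p) := by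
    have h1 : ∫ p, Ψ p * lev κ p (ev P Q p) * om P Q p = 2 * D * ((∫ p, f r p) - (∫ p, f ε p) + (∫ p, F p)) := by
      have hs2 : Integrable (fun p => f r p - f ε p) := (hfI r hr le_rfl).sub (hfI ε hε hεr')
      rw [← integral_sub (hfI r hr le_rfl) (hfI ε hε hεr'), ← integral_add hs2 hFI, ← integral_const_mul]
      exact integral_congr_ae (by filter_upwards with p; exact hpt1 p)
    have h2 : ∫ p, κ p * lev Ψ p (ev P Q p) * om P Q p = 2 * D * ∫ p, K p.1 * (E p.2 * G p) := by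
      rw [← integral_const_mul]
      exact integral_congr_ae (by filter_upwards with p; exact hpt2 p)
    rw [h1, h2] at hI
    exact mul_left_cancel₀ (by positivity) hI
  -- Fubini
  have hfub : ∀ ρ, 0 < ρ → ρ ≤ r → w * (∫ p, f ρ p) = ∫ s, phr ρ s * (w * ∫ z, η z ^ 2 * (Ψ (s, z) * ta P Q D (s, z))) := by
    intro ρ hρ hρr
    have h1 := hfI ρ hρ hρr
    rw [Measure.volume_eq_prod] at h1 ⊢
    rw [integral_prod _ h1, ← integral_const_mul]
    apply integral_congr_ae
    filter_upwards with s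
    simp only [hf]
    rw [integral_const_mul]
    ring
  have hfubI : Integrable (fun s => phr ε s * (w * ∫ z, η z ^ 2 * (Ψ (s, z) * ta P Q D (s, z)))) := by
    have h1 := hfI ε hε hεr'
    rw [Measure.volume_eq_prod] at h1
    have h2 := (h1.integral_prod_left).const_mul w
    apply h2.congr
    filter_upwards with s
    simp only [hf]
    rw [integral_const_mul]
    ring
  refine ⟨?_, hfubI⟩
  -- the lower bound
  set hh : ℂ → ℝ := fun s => ∫ z, E z * G (s, z) with hhh
  have hh0 : ∀ s ∈ ball (0 : ℂ) (4 * r), 0 ≤ hh s := by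
    intro s hs
    apply integral_nonneg
    intro z
    by_cases hz : z ∈ ball (0 : ℂ) 1
    · exact mul_nonneg (hE0 z) (hG0 _ ⟨hs, hz⟩)
    · have : E z = 0 := hEz0 z (fun h => hz (hsη h))
      simp [this]
  have hhc : ContinuousOn hh (ball 0 (4 * r)) := CORE_slice hE.continuous hsE cG
  have hKhI : Integrable (fun s => K s * hh s) := by
    have h1 := hKG
    rw [Measure.volume_eq_prod] at h1
    have h2 := h1.integral_prod_left
    apply h2.congr
    filter_upwards with s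
    simp only [hhh]
    rw [integral_const_mul]
  have hKhE : ∫ p, K p.1 * (E p.2 * G p) = ∫ s, K s * hh s := by
    have h1 := hKG
    rw [Measure.volume_eq_prod] at h1 ⊢
    rw [integral_prod _ h1]
    apply integral_congr_ae
    filter_upwards with s
    simp only [hhh]
    rw [integral_const_mul]
  have hlow : (1 / 50) * ∫ s in ball (0 : ℂ) (r / 4) \ ball (0 : ℂ) ε, hh s ≤ ∫ s, K s * hh s := by
    rw [← integral_const_mul]
    have hsub : ball (0 : ℂ) (r / 4) \ ball (0 : ℂ) ε ⊆ closedBall 0 (r / 4) := sdiff_subset.trans ball_subset_closedBall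
    have hmsA : MeasurableSet (ball (0 : ℂ) (r / 4) \ ball (0 : ℂ) ε) := measurableSet_ball.diff measurableSet_ball
    have hhI : IntegrableOn hh (ball (0 : ℂ) (r / 4) \ ball (0 : ℂ) ε) := by
      apply IntegrableOn.mono_set _ hsub
      apply ContinuousOn.integrableOn_compact (isCompact_closedBall _ _)
      exact hhc.mono (closedBall_subset_ball (by linarith))
    calc ∫ s in ball (0 : ℂ) (r / 4) \ ball (0 : ℂ) ε, 1 / 50 * hh s ≤ ∫ s in ball (0 : ℂ) (r / 4) \ ball (0 : ℂ) ε, K s * hh s := by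
          apply setIntegral_mono_on (hhI.const_mul _) hKhI.integrableOn hmsA
          intro s hs
          have h1 : ‖s‖ ≤ r / 4 := by
            have := hsub hs
            rwa [mem_closedBall_zero_iff] at this
          have h2 : ε ≤ ‖s‖ := by
            have := hs.2
            rwa [mem_ball_zero_iff, not_lt] at this
          apply mul_le_mul_of_nonneg_right (hKb s h2 h1)
          apply hh0
          rw [mem_ball_zero_iff]
          linarith
      _ ≤ ∫ s, K s * hh s := by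
          apply setIntegral_le_integral hKhI
          filter_upwards with s
          by_cases hs : s ∈ ball (0 : ℂ) (4 * r)
          · exact mul_nonneg (hK0 s) (hh0 s hs)
          · rw [mem_ball_zero_iff, not_lt] at hs
            have : K s = 0 := hKz s (by linarith)
            simp [this]
  -- the error term
  have hle : w * |∫ p, F p| ≤ (MEl * CL / β * (w * r ^ α) + (4 * Mη * CL + 16 * Real.pi / β) * (w * r ^ α) ^ (1 / 2 : ℝ)) * B := by
    set l : ℝ := Real.sqrt w with hl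
    have hlpos : 0 < l := Real.sqrt_pos.2 hw
    have hll : l * l = w := Real.mul_self_sqrt hw.le
    have hdη : Continuous (fderiv ℝ η) := hη.continuous_fderiv (by simp)
    set c : ℂ → ℝ := fun z => B * (r ^ β / β) * |lap E z| + 4 * B / l * ‖fderiv ℝ η z‖ ^ 2 with hc
    have hcc : Continuous c := (continuous_const.mul (CORE_lapcont hE).abs).add (continuous_const.mul (hdη.norm.pow 2))
    have hc0 : ∀ z, 0 ≤ c z := by
      intro z
      positivity
    have hms : MeasurableSet (ball (0 : ℂ) r ×ˢ ball (0 : ℂ) 1) := measurableSet_ball.prod measurableSet_ball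
    have hsub : ball (0 : ℂ) r ×ˢ ball (0 : ℂ) 1 ⊆ A := prod_mono (ball_subset_ball (by linarith)) subset_rfl
    -- the pointwise bound
    have hpb : ∀ p ∈ ball (0 : ℂ) r ×ˢ ball (0 : ℂ) 1, p.1 ≠ 0 →
        ‖F p‖ ≤ c p.2 * (‖p.1‖ ^ (-β) * U p) + 4 * B * l * (‖p.1‖ ^ (β - 2) * (E p.2 * ta P Q D p)) := by
      intro p hp hp1
      have hpA := hsub hp
      have hs1 : 0 < ‖p.1‖ := norm_pos_iff.2 hp1
      have h1 : K p.1 ≤ r ^ β / β * ‖p.1‖ ^ (-β) := (hKl p.1 hp1).trans (CORE_log hr hs1 hβ)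
      have h2 : |K p.1 * lap E p.2 * U p| ≤ (r ^ β / β * ‖p.1‖ ^ (-β)) * |lap E p.2| * U p := by
        rw [abs_mul, abs_mul, abs_of_nonneg (hK0 _), abs_of_nonneg (hU0 _)]
        gcongr
        exact hU0 p
      have hηd : ‖fderiv ℝ E p.2‖ = 2 * |η p.2| * ‖fderiv ℝ η p.2‖ := by
        have h3 : HasFDerivAt E ((2 * η p.2) • fderiv ℝ η p.2) p.2 := by
          have h4 := ((hη.differentiable (by simp)) p.2).hasFDerivAt.pow 2
          simpa [hEdef] using h4
        rw [h3.fderiv, norm_smul, Real.norm_eq_abs, abs_mul]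
        simp
      have h5 : |X p| ≤ ‖fderiv ℝ K p.1‖ * (2 * |η p.2| * ‖fderiv ℝ η p.2‖) * ‖w1 P Q p‖ * ‖w2 P Q p‖ * (om P Q p / (2 * D)) := by
        have a1 : |fderiv ℝ K p.1 (-(w2 P Q p))| ≤ ‖fderiv ℝ K p.1‖ * ‖w2 P Q p‖ := by
          have := (fderiv ℝ K p.1).le_opNorm (-(w2 P Q p))
          rwa [norm_neg, Real.norm_eq_abs] at this
        have a2 : |fderiv ℝ K p.1 (Complex.I * -(w2 P Q p))| ≤ ‖fderiv ℝ K p.1‖ * ‖w2 P Q p‖ := by
          have := (fderiv ℝ K p.1).le_opNorm (Complex.I * -(w2 P Q p))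
          rwa [norm_mul, Complex.norm_I, one_mul, norm_neg, Real.norm_eq_abs] at this
        have a3 : |fderiv ℝ E p.2 (w1 P Q p)| ≤ ‖fderiv ℝ E p.2‖ * ‖w1 P Q p‖ := by
          have := (fderiv ℝ E p.2).le_opNorm (w1 P Q p)
          rwa [Real.norm_eq_abs] at this
        have a4 : |fderiv ℝ E p.2 (Complex.I * w1 P Q p)| ≤ ‖fderiv ℝ E p.2‖ * ‖w1 P Q p‖ := by
          have := (fderiv ℝ E p.2).le_opNorm (Complex.I * w1 P Q p)
          rwa [norm_mul, Complex.norm_I, one_mul, Real.norm_eq_abs] at this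
        have a5 : |fderiv ℝ K p.1 (-(w2 P Q p)) * fderiv ℝ E p.2 (w1 P Q p) +
            fderiv ℝ K p.1 (Complex.I * -(w2 P Q p)) * fderiv ℝ E p.2 (Complex.I * w1 P Q p)| ≤
            2 * ((‖fderiv ℝ K p.1‖ * ‖w2 P Q p‖) * (‖fderiv ℝ E p.2‖ * ‖w1 P Q p‖)) := by
          refine (abs_add_le _ _).trans ?_
          rw [abs_mul, abs_mul, two_mul]
          gcongr
        have ho := hom p
        have e1 : X p = (fderiv ℝ K p.1 (-(w2 P Q p)) * fderiv ℝ E p.2 (w1 P Q p) +
            fderiv ℝ K p.1 (Complex.I * -(w2 P Q p)) * fderiv ℝ E p.2 (Complex.I * w1 P Q p)) * ((1 / 2) * (om P Q p / (2 * D))) := by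
          simp only [hX]
          ring
        rw [e1, abs_mul, abs_of_nonneg (by positivity : 0 ≤ (1 / 2) * (om P Q p / (2 * D)))]
        calc _ ≤ 2 * ((‖fderiv ℝ K p.1‖ * ‖w2 P Q p‖) * (‖fderiv ℝ E p.2‖ * ‖w1 P Q p‖)) * ((1 / 2) * (om P Q p / (2 * D))) := by gcongr
          _ = _ := by rw [hηd]; ring
      have h6 := CORE_cross (r := r) (ε := ε) (β := β) (l := l) (dk := ‖fderiv ℝ K p.1‖) (de := ‖fderiv ℝ η p.2‖) (e := |η p.2|) (t1 := ‖p.1‖)
        (t2 := 0) (o := om P Q p / (2 * D)) hr hs1 hlpos (div_nonneg (hom p) (by positivity)) (abs_nonneg _) (norm_nonneg _)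
        (norm_nonneg (w1 P Q p)) (norm_nonneg (w2 P Q p)) (norm_nonneg _) (hKd p.1 hp1)
      have eU : ‖w1 P Q p‖ ^ 2 * (om P Q p / (2 * D)) = U p := by
        simp only [hU, Complex.normSq_eq_norm_sq]
        field_simp
      have eT : ‖w2 P Q p‖ ^ 2 * (om P Q p / (2 * D)) = ta P Q D p := by
        simp only [ta, Complex.normSq_eq_norm_sq]
        field_simp
      rw [eU, eT, sq_abs] at h6
      have h7 : |K p.1 * lap E p.2 * U p + X p| ≤ (r ^ β / β * ‖p.1‖ ^ (-β)) * |lap E p.2| * U p +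
          (4 * l * (‖p.1‖ ^ (β - 2) * (η p.2 ^ 2 * ta P Q D p)) + 4 / l * (‖fderiv ℝ η p.2‖ ^ 2 * (‖p.1‖ ^ (-β) * U p))) :=
        (abs_add_le _ _).trans (add_le_add h2 (h5.trans h6))
      rw [Real.norm_eq_abs]
      simp only [hF]
      rw [abs_mul]
      calc |Ψ p| * |K p.1 * lap E p.2 * U p + X p| ≤ B * ((r ^ β / β * ‖p.1‖ ^ (-β)) * |lap E p.2| * U p +
          (4 * l * (‖p.1‖ ^ (β - 2) * (η p.2 ^ 2 * ta P Q D p)) + 4 / l * (‖fderiv ℝ η p.2‖ ^ 2 * (‖p.1‖ ^ (-β) * U p)))) := by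
            apply mul_le_mul (hΨB p hpA) h7 (abs_nonneg _) hB
        _ = c p.2 * (‖p.1‖ ^ (-β) * U p) + 4 * B * l * (‖p.1‖ ^ (β - 2) * (E p.2 * ta P Q D p)) := by
            simp only [hc, hEdef]
            field_simp
            ring
    -- the slices
    have hslice : ∀ z ∈ ball (0 : ℂ) 1, ∫⁻ s in ball (0 : ℂ) r, ENNReal.ofReal (‖s‖ ^ (-β) * U (s, z)) ≤ ENNReal.ofReal (CL * r ^ (α - β)) := by
      intro z hz
      have dP : DifferentiableOn ℂ (fun s => P (s, z)) (ball 0 (4 * r)) := by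
        intro s hs
        exact (CORE_slice1 hA hP (p := (s, z)) ⟨hs, hz⟩).differentiableAt.differentiableWithinAt
      have dQ : DifferentiableOn ℂ (fun s => Q (s, z)) (ball 0 (4 * r)) := by
        intro s hs
        exact (CORE_slice1 hA hQ (p := (s, z)) ⟨hs, hz⟩).differentiableAt.differentiableWithinAt
      have hnz : ∀ s ∈ ball (0 : ℂ) (4 * r), P (s, z) ≠ 0 ∨ Q (s, z) ≠ 0 := fun s hs => hn (s, z) ⟨hs, hz⟩
      have hlapU : ∀ s ∈ ball (0 : ℂ) (4 * r), lap (fun s => uu P Q D (s, z)) s = U (s, z) := by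
        intro s hs
        have h1 := CORE_lapu isOpen_ball dP dQ hD hnz hs
        have d1 : deriv (fun s => P (s, z)) s = fderiv ℂ P (s, z) (1, 0) := (CORE_slice1 hA hP (p := (s, z)) ⟨hs, hz⟩).deriv
        have d2 : deriv (fun s => Q (s, z)) s = fderiv ℂ Q (s, z) (1, 0) := (CORE_slice1 hA hQ (p := (s, z)) ⟨hs, hz⟩).deriv
        rw [d1, d2] at h1
        exact h1
      have h2 := hL r (fun s => uu P Q D (s, z)) hr (CORE_smooth isOpen_ball dP dQ D hnz)
        (fun s hs => by rw [hlapU s hs]; exact hU0 _) (fun s hs s' hs' => hH s hs s' hs' z hz)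
      refine le_trans (le_of_eq ?_) h2
      apply setLIntegral_congr_fun measurableSet_ball
      intro s hs
      show ENNReal.ofReal (‖s‖ ^ (-β) * U (s, z)) = ENNReal.ofReal (‖s‖ ^ (-β) * lap (fun s => uu P Q D (s, z)) s)
      rw [hlapU s (ball_subset_ball (by linarith) hs)]
    have hTb : ∀ s ∈ ball (0 : ℂ) r, ∫ z, E z * ta P Q D (s, z) ≤ 2 / w := by
      intro s hs
      have := hM s hs
      rw [le_div_iff₀ hw, mul_comm]
      exact this
    have tonA := CORE_tonA (r := r) (cL := CL * r ^ (α - β)) (β := β) (U := U) hcc hc0 (cU.mono hsub) hslice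
    have tonB := CORE_tonB (r := r) (cT := 2 / w) (β := β) (T := ta P Q D) hr hβ hE.continuous hE0 hsE cT hT0 hTb
    have hcI : Integrable c := by
      apply hcc.integrable_of_hasCompactSupport
      apply HasCompactSupport.intro hkc
      intro z hz
      have h1 : fderiv ℝ η z = 0 := by
        rw [(hηz z hz).fderiv_eq]
        simp
      simp [hc, hElap z hz, h1]
    have hMEI : Integrable (fun z => |lap E z|) := by
      apply ((CORE_lapcont hE).abs).integrable_of_hasCompactSupport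
      apply HasCompactSupport.intro hkc
      intro z hz
      simp [hElap z hz]
    have hMηI : Integrable (fun z => ‖fderiv ℝ η z‖ ^ 2) := by
      apply (hdη.norm.pow 2).integrable_of_hasCompactSupport
      apply HasCompactSupport.intro hkc
      intro z hz
      have h1 : fderiv ℝ η z = 0 := by
        rw [(hηz z hz).fderiv_eq]
        simp
      simp [h1]
    have hcint : ∫⁻ z in ball (0 : ℂ) 1, ENNReal.ofReal (c z) ≤ ENNReal.ofReal (B * (r ^ β / β) * MEl + 4 * B / l * Mη) := by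
      calc ∫⁻ z in ball (0 : ℂ) 1, ENNReal.ofReal (c z) ≤ ∫⁻ z, ENNReal.ofReal (c z) := setLIntegral_le_lintegral _ _
        _ = ENNReal.ofReal (∫ z, c z) := (ofReal_integral_eq_lintegral_ofReal hcI (by filter_upwards with z; exact hc0 z)).symm
        _ = _ := by
          congr 1
          simp only [hc]
          rw [integral_add (hMEI.const_mul _) (hMηI.const_mul _), integral_const_mul, integral_const_mul, hMEl, hMη]
    have hbound : ∫⁻ p, ENNReal.ofReal ‖F p‖ ≤ ENNReal.ofReal (B * (r ^ β / β) * MEl + 4 * B / l * Mη) * ENNReal.ofReal (CL * r ^ (α - β)) +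
        ENNReal.ofReal (4 * B * l) * (ENNReal.ofReal (2 * Real.pi * (r ^ β / β)) * ENNReal.ofReal (2 / w)) := by
      have hnull : ∀ᵐ p : ℂ × ℂ, p.1 ≠ 0 := by
        rw [ae_iff]
        have : {p : ℂ × ℂ | ¬p.1 ≠ 0} = {(0 : ℂ)} ×ˢ (univ : Set ℂ) := by
          ext p
          simp
        rw [this, Measure.volume_eq_prod, Measure.prod_prod]
        simp
      have hmB : AEMeasurable (fun p : ℂ × ℂ => ENNReal.ofReal (4 * B * l * (‖p.1‖ ^ (β - 2) * (E p.2 * ta P Q D p))))
          ((volume : Measure (ℂ × ℂ)).restrict (ball 0 r ×ˢ ball 0 1)) := by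
        apply AEMeasurable.ennreal_ofReal
        apply AEMeasurable.const_mul
        apply AEMeasurable.mul
        · exact ((continuous_fst.norm).measurable.pow_const (β - 2)).aemeasurable
        · apply AEMeasurable.mul
          · exact (hE.continuous.comp continuous_snd).measurable.aemeasurable
          · exact ((cT.mono hsub).aestronglyMeasurable hms).aemeasurable
      calc ∫⁻ p, ENNReal.ofReal ‖F p‖ = ∫⁻ p in ball (0 : ℂ) r ×ˢ ball (0 : ℂ) 1, ENNReal.ofReal ‖F p‖ := by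
            rw [← lintegral_indicator hms]
            apply lintegral_congr
            intro p
            by_cases hp : p ∈ ball (0 : ℂ) r ×ˢ ball (0 : ℂ) 1
            · rw [indicator_of_mem hp]
            · rw [indicator_of_notMem hp]
              have : F p = 0 := by
                apply hFz
                by_cases h2 : p.2 ∈ k
                · right
                  by_contra h
                  exact hp ⟨mem_ball_zero_iff.2 (not_le.1 h), hsη h2⟩
                · exact Or.inl h2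
              simp [this]
        _ ≤ ∫⁻ p in ball (0 : ℂ) r ×ˢ ball (0 : ℂ) 1, (ENNReal.ofReal (c p.2 * (‖p.1‖ ^ (-β) * U p)) +
              ENNReal.ofReal (4 * B * l * (‖p.1‖ ^ (β - 2) * (E p.2 * ta P Q D p)))) := by
            apply setLIntegral_mono_ae' hms
            filter_upwards [hnull] with p hp0 hp
            exact (ENNReal.ofReal_le_ofReal (hpb p hp hp0)).trans ENNReal.ofReal_add_le
        _ = (∫⁻ p in ball (0 : ℂ) r ×ˢ ball (0 : ℂ) 1, ENNReal.ofReal (c p.2 * (‖p.1‖ ^ (-β) * U p))) +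
              ∫⁻ p in ball (0 : ℂ) r ×ˢ ball (0 : ℂ) 1, ENNReal.ofReal (4 * B * l * (‖p.1‖ ^ (β - 2) * (E p.2 * ta P Q D p))) :=
            lintegral_add_right' _ hmB
        _ ≤ _ := by
            apply add_le_add
            · refine tonA.trans ?_
              gcongr
            · have e : ∀ p : ℂ × ℂ, ENNReal.ofReal (4 * B * l * (‖p.1‖ ^ (β - 2) * (E p.2 * ta P Q D p))) =
                  ENNReal.ofReal (4 * B * l) * ENNReal.ofReal (‖p.1‖ ^ (β - 2) * (E p.2 * ta P Q D p)) := by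
                intro p
                rw [ENNReal.ofReal_mul (by positivity)]
              simp only [e]
              rw [lintegral_const_mul' _ _ ENNReal.ofReal_ne_top]
              gcongr
    have hMEl0 : 0 ≤ MEl := by
      rw [hMEl]
      exact integral_nonneg fun z => abs_nonneg _
    have hMη0 : 0 ≤ Mη := by
      rw [hMη]
      exact integral_nonneg fun z => by positivity
    have hreal : |∫ p, F p| ≤ (B * (r ^ β / β) * MEl + 4 * B / l * Mη) * (CL * r ^ (α - β)) +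
        4 * B * l * (2 * Real.pi * (r ^ β / β) * (2 / w)) := by
      have h1 := norm_integral_le_lintegral_norm (μ := (volume : Measure (ℂ × ℂ))) F
      rw [Real.norm_eq_abs] at h1
      refine h1.trans ?_
      apply ENNReal.toReal_le_of_le_ofReal (by positivity)
      refine hbound.trans (le_of_eq ?_)
      rw [← ENNReal.ofReal_mul (by positivity), ← ENNReal.ofReal_mul (by positivity), ← ENNReal.ofReal_mul (by positivity), ← ENNReal.ofReal_add (by positivity) (by positivity)]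
    have hrα : r ^ (α - β) = r ^ β := by
      congr 1
      linarith
    have hrr : r ^ β * r ^ β = r ^ α := by
      rw [← Real.rpow_add hr]
      congr 1
      linarith
    have hsq : (w * r ^ α) ^ (1 / 2 : ℝ) = l * r ^ β := by
      rw [← Real.sqrt_eq_rpow, Real.sqrt_mul hw.le, ← hrr, Real.sqrt_mul_self (by positivity)]
    calc w * |∫ p, F p| ≤ w * ((B * (r ^ β / β) * MEl + 4 * B / l * Mη) * (CL * r ^ (α - β)) +
        4 * B * l * (2 * Real.pi * (r ^ β / β) * (2 / w))) := by gcongr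
      _ = _ := by
        rw [hsq, hrα, ← hrr, ← hll]
        field_simp
        ring
  -- conclusion
  have hc1 := hfub r hr le_rfl
  have hc2 := hfub ε hε hεr'
  have e3 : (∫ s in ball (0 : ℂ) (r / 4) \ ball (0 : ℂ) ε, w * ∫ z, η z ^ 2 * (lev Ψ (s, z) (ev P Q (s, z)) * om P Q (s, z) / (2 * D))) =
      w * ∫ s in ball (0 : ℂ) (r / 4) \ ball (0 : ℂ) ε, hh s := by
    rw [← integral_const_mul]
  rw [e3, ← hc1, ← hc2]
  have h9 : -|∫ p, F p| ≤ -(∫ p, F p) := neg_le_neg (le_abs_self _)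
  have h10 : w * (∫ p, K p.1 * (E p.2 * G p)) = w * (∫ p, f r p) - w * (∫ p, f ε p) + w * ∫ p, F p := by
    rw [← hmain]
    ring
  have h11 : w * ((1 / 50) * ∫ s in ball (0 : ℂ) (r / 4) \ ball (0 : ℂ) ε, hh s) ≤ w * ∫ p, K p.1 * (E p.2 * G p) := by
    rw [hKhE]
    exact mul_le_mul_of_nonneg_left hlow hw.le
  have h12 : w * (∫ p, F p) ≤ w * |∫ p, F p| := mul_le_mul_of_nonneg_left (le_abs_self _) hw.le
  linarith

theorem CORE (hIBP : IBP_stmt) (hKER : KER_stmt) (hLHM : LHM_stmt) : CORE_stmt := by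
  intro C0 α hC0 hα hα1 η hη hsη
  have hβ : 0 < α / 2 := by positivity
  obtain ⟨CL, hCL, hL⟩ := hLHM C0 α (α / 2) hC0 hβ.le (by linarith) hα1
  set β : ℝ := α / 2 with hβdef
  have hαβ : α = 2 * β := by rw [hβdef]; ring
  set MEl : ℝ := ∫ z, |lap (fun z => η z ^ 2) z| with hMEl
  set Mη : ℝ := ∫ z, ‖fderiv ℝ η z‖ ^ 2 with hMη
  have hMEl0 : 0 ≤ MEl := integral_nonneg fun z => abs_nonneg _
  have hMη0 : 0 ≤ Mη := integral_nonneg fun z => by positivity
  refine ⟨MEl * CL / β + (4 * Mη * CL + 16 * Real.pi / β), by positivity, ?_⟩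
  intro r D w B P Q Ψ hr hr1 hD hw hB hP hQ hn hH hM hΨ hΨB hlev
  have hA : IsOpen (ball (0 : ℂ) (4 * r) ×ˢ ball (0 : ℂ) 1) := isOpen_ball.prod isOpen_ball
  obtain ⟨cw1, cw2, com⟩ := CORE_geo hA hP hQ hn
  have cev : ContinuousOn (ev P Q) (ball (0 : ℂ) (4 * r) ×ˢ ball (0 : ℂ) 1) := cw2.neg.prodMk cw1
  have cG : ContinuousOn (fun p => lev Ψ p (ev P Q p) * om P Q p / (2 * D)) (ball (0 : ℂ) (4 * r) ×ˢ ball (0 : ℂ) 1) :=
    ((CORE_levcont hA hΨ cev).mul com).div_const _
  have cT : ContinuousOn (ta P Q D) (ball (0 : ℂ) (4 * r) ×ˢ ball (0 : ℂ) 1) := by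
    unfold ta
    exact ((continuousOn_const.mul (Complex.continuous_normSq.comp_continuousOn cw2)).mul com).div_const D
  have hsE : tsupport (fun z => η z ^ 2) ⊆ ball 0 1 := by
    refine subset_trans ?_ hsη
    apply closure_minimal _ (isClosed_tsupport η)
    intro z hz
    by_contra h
    apply hz
    simp [image_eq_zero_of_notMem_tsupport h]
  have hEc : Continuous (fun z => η z ^ 2) := hη.continuous.pow 2
  have cJ : ContinuousOn (fun s => w * ∫ z, η z ^ 2 * (Ψ (s, z) * ta P Q D (s, z))) (ball 0 (4 * r)) :=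
    continuousOn_const.mul (CORE_slice hEc hsE (hΨ.continuousOn.mul cT))
  have ch : ContinuousOn (fun s => w * ∫ z, η z ^ 2 * (lev Ψ (s, z) (ev P Q (s, z)) * om P Q (s, z) / (2 * D))) (ball 0 (4 * r)) :=
    continuousOn_const.mul (CORE_slice hEc hsE cG)
  set J : ℂ → ℝ := fun s => w * ∫ z, η z ^ 2 * (Ψ (s, z) * ta P Q D (s, z)) with hJ
  set h : ℂ → ℝ := fun s => w * ∫ z, η z ^ 2 * (lev Ψ (s, z) (ev P Q (s, z)) * om P Q (s, z) / (2 * D)) with hh
  set e : ℕ → ℝ := fun n => r / 8 / ((n : ℝ) + 1) with he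
  have he0 : ∀ n, 0 < e n := fun n => by positivity
  have her : ∀ n, e n ≤ r / 8 := by
    intro n
    apply div_le_self (by positivity)
    have : (0 : ℝ) ≤ n := Nat.cast_nonneg n
    linarith
  have helim : Tendsto e atTop (𝓝 0) := by
    have := (tendsto_one_div_add_atTop_nhds_zero_nat (𝕜 := ℝ)).const_mul (r / 8)
    rw [mul_zero] at this
    refine this.congr fun n => ?_
    simp only [he]
    ring
  have hst := fun n => CORE_step hIBP hKER hβ hαβ hCL hη hsη hL hMEl hMη hr hr1 hD hw hB hP hQ hn hH hM hΨ hΨB hlev (he0 n) (her n)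
  have hJ0 : ContinuousAt J 0 := cJ.continuousAt (isOpen_ball.mem_nhds (mem_ball_self (by positivity)))
  have t1 : Tendsto (fun n => ∫ s, phr (e n) s * J s) atTop (𝓝 (J 0)) := CORE_moll hJ0 he0 helim (fun n => (hst n).2)
  have hhI : IntegrableOn h (ball (0 : ℂ) (r / 4)) := by
    apply IntegrableOn.mono_set _ (ball_subset_closedBall)
    apply ContinuousOn.integrableOn_compact (isCompact_closedBall _ _)
    exact ch.mono (closedBall_subset_ball (by linarith))
  have hmono : Monotone (fun n => ball (0 : ℂ) (r / 4) \ ball (0 : ℂ) (e n)) := by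
    intro m n hmn
    apply sdiff_subset_sdiff_right
    apply ball_subset_ball
    simp only [he]
    gcongr
  have hun : (⋃ n, (ball (0 : ℂ) (r / 4) \ ball (0 : ℂ) (e n))) = ball (0 : ℂ) (r / 4) \ {0} := by
    ext s
    simp only [mem_iUnion, Set.mem_sdiff, mem_ball_zero_iff, mem_singleton_iff, not_lt]
    constructor
    · rintro ⟨n, h1, h2⟩
      refine ⟨h1, ?_⟩
      intro h3
      rw [h3, norm_zero] at h2
      exact absurd h2 (not_le.2 (he0 n))
    · rintro ⟨h1, h2⟩
      have h3 : 0 < ‖s‖ := norm_pos_iff.2 h2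
      obtain ⟨n, hn'⟩ := (helim.eventually (gt_mem_nhds h3)).exists
      exact ⟨n, h1, hn'.le⟩
  have t2 : Tendsto (fun n => ∫ s in ball (0 : ℂ) (r / 4) \ ball (0 : ℂ) (e n), h s) atTop (𝓝 (∫ s in ball (0 : ℂ) (r / 4), h s)) := by
    have h1 : IntegrableOn h (⋃ n, (ball (0 : ℂ) (r / 4) \ ball (0 : ℂ) (e n))) := by
      rw [hun]
      exact hhI.mono_set sdiff_subset
    have h2 := tendsto_setIntegral_of_monotone (f := h) (fun n => measurableSet_ball.diff measurableSet_ball) hmono h1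
    have h3 : ∫ s in (⋃ n, (ball (0 : ℂ) (r / 4) \ ball (0 : ℂ) (e n))), h s = ∫ s in ball (0 : ℂ) (r / 4), h s := by
      rw [hun]
      apply setIntegral_congr_set
      exact sdiff_null_ae_eq_self (by simp)
    rw [h3] at h2
    exact h2
  have t3 := (t2.const_mul (1 / 50)).add t1
  have hfin := le_of_tendsto' t3 (fun n => (hst n).1)
  have e1 : ∀ s, (w * ∫ z, η z ^ 2 * (lev Ψ (s, z) (ev P Q (s, z)) * om P Q (s, z)) / (2 * D)) = h s := by
    intro s
    simp only [hh, mul_div_assoc]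
  have e2 : w * (∫ z, η z ^ 2 * (Ψ (0, z) * ta P Q D (0, z))) = J 0 := rfl
  simp only [e1]
  rw [e2]
  have hx : 0 ≤ w * r ^ α := by positivity
  have hx2 : 0 ≤ (w * r ^ α) ^ (1 / 2 : ℝ) := by positivity
  have herr : (MEl * CL / β * (w * r ^ α) + (4 * Mη * CL + 16 * Real.pi / β) * (w * r ^ α) ^ (1 / 2 : ℝ)) * B ≤
      (MEl * CL / β + (4 * Mη * CL + 16 * Real.pi / β)) * B * (w * r ^ α + (w * r ^ α) ^ (1 / 2 : ℝ)) := by
    have a1 : 0 ≤ MEl * CL / β := by positivity
    have a2 : 0 ≤ 4 * Mη * CL + 16 * Real.pi / β := by positivity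
    have a3 := mul_nonneg (mul_nonneg a1 hx2) hB
    have a4 := mul_nonneg (mul_nonneg a2 hx) hB
    nlinarith
  linarith

end Pool.Agent.P2
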