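import Pool.Agent.helper37.P2.SpecA

set_option autoImplicit false
set_option linter.unusedVariables false

open scoped ContDiff Topology
open MeasureTheory Filter Set Metric

namespace Pool.Agent.P2

theorem CORE_dd {V : Type} [NormedAddCommGroup V] [NormedSpace ℝ V] {g : V → ℝ} {z : V} (hg : ContDiffAt ℝ 2 g z) (v : V) :
    HasDerivAt (fun x : ℝ => fderiv ℝ g (z + x • v) v) (iteratedFDeriv ℝ 2 g z ![v, v]) 0 := by
  have h1 : DifferentiableAt ℝ (fderiv ℝ g) z :=
    (hg.fderiv_right (m := 1) (by norm_num)).differentiableAt (by norm_num)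
  have h2 : HasFDerivAt (fderiv ℝ g) (fderiv ℝ (fderiv ℝ g) z) (z + (0 : ℝ) • v) := by
    simpa using h1.hasFDerivAt
  have h3 : HasDerivAt (fun x : ℝ => z + x • v) v 0 := by
    have := ((hasDerivAt_id (0 : ℝ)).smul_const v).const_add z
    simpa using this
  have h4 := h2.comp_hasDerivAt (0 : ℝ) h3
  have h5 := (ContinuousLinearMap.apply ℝ ℝ v).hasFDerivAt.comp_hasDerivAt (0 : ℝ) h4
  rw [iteratedFDeriv_two_apply]
  simpa [Function.comp_def] using h5

theorem CORE_rot {g : ℂ → ℝ} {z : ℂ} (a : ℂ) :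
    iteratedFDeriv ℝ 2 g z ![a, a] + iteratedFDeriv ℝ 2 g z ![Complex.I * a, Complex.I * a] = Complex.normSq a * (4 * lap g z) := by
  simp only [lap, iteratedFDeriv_two_apply]
  have ha : a = a.re • (1 : ℂ) + a.im • Complex.I := by
    apply Complex.ext <;> simp
  have hb : Complex.I * a = (-a.im) • (1 : ℂ) + a.re • Complex.I := by
    apply Complex.ext <;> simp
  rw [hb]
  conv_lhs => rw [ha]
  simp only [Matrix.cons_val_zero, Matrix.cons_val_one, map_add, map_smul, _root_.add_apply,
    _root_.smul_apply, smul_eq_mul, Complex.normSq_apply]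
  simp
  ring

theorem CORE_prod {K E : ℂ → ℝ} (hK : ContDiff ℝ ∞ K) (hE : ContDiff ℝ ∞ E) (s z a1 a2 : ℂ) :
    lev (fun p : ℂ × ℂ => K p.1 * E p.2) (s, z) (a1, a2) =
      E z * (Complex.normSq a1 * lap K s) + K s * (Complex.normSq a2 * lap E z) +
        (1 / 2) * (fderiv ℝ K s a1 * fderiv ℝ E z a2 + fderiv ℝ K s (Complex.I * a1) * fderiv ℝ E z (Complex.I * a2)) := by
  have hKd : Differentiable ℝ K := hK.differentiable (by simp)
  have hEd : Differentiable ℝ E := hE.differentiable (by simp)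
  set h : ℂ → ℝ := fun t : ℂ => K (s + t * a1) * E (z + t * a2) with hh
  have hc : ContDiff ℝ ∞ h := by
    apply ContDiff.mul
    · exact hK.comp (contDiff_const.add (contDiff_id.mul contDiff_const))
    · exact hE.comp (contDiff_const.add (contDiff_id.mul contDiff_const))
  have hlev : lev (fun p : ℂ × ℂ => K p.1 * E p.2) (s, z) (a1, a2) = lap h 0 := by
    simp [lev, hh]
  have hf : ∀ t v : ℂ, fderiv ℝ h t v = E (z + t * a2) * fderiv ℝ K (s + t * a1) (v * a1) +
      K (s + t * a1) * fderiv ℝ E (z + t * a2) (v * a2) := by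
    intro t v
    have h1 : HasFDerivAt (fun t : ℂ => s + t * a1) ((ContinuousLinearMap.mul ℝ ℂ).flip a1) t := by
      have := ((ContinuousLinearMap.mul ℝ ℂ).flip a1).hasFDerivAt (x := t)
      exact this.const_add s
    have h2 : HasFDerivAt (fun t : ℂ => z + t * a2) ((ContinuousLinearMap.mul ℝ ℂ).flip a2) t := by
      have := ((ContinuousLinearMap.mul ℝ ℂ).flip a2).hasFDerivAt (x := t)
      exact this.const_add z
    have h3 := (hKd (s + t * a1)).hasFDerivAt.comp t h1
    have h4 := (hEd (z + t * a2)).hasFDerivAt.comp t h2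
    have h5 := h3.mul h4
    have h6 : HasFDerivAt h (((K ∘ fun t : ℂ => s + t * a1) t) • (fderiv ℝ E (z + t * a2)).comp ((ContinuousLinearMap.mul ℝ ℂ).flip a2) +
        ((E ∘ fun t : ℂ => z + t * a2) t) • (fderiv ℝ K (s + t * a1)).comp ((ContinuousLinearMap.mul ℝ ℂ).flip a1)) t := h5
    rw [h6.fderiv]
    simp
    ring_nf
  have hdd : ∀ v : ℂ, iteratedFDeriv ℝ 2 h 0 ![v, v] = 2 * (fderiv ℝ K s (v * a1) * fderiv ℝ E z (v * a2)) +
      E z * iteratedFDeriv ℝ 2 K s ![v * a1, v * a1] + K s * iteratedFDeriv ℝ 2 E z ![v * a2, v * a2] := by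
    intro v
    have g1 := CORE_dd (V := ℂ) (g := h) (z := 0) (hc.contDiffAt.of_le (by norm_cast)) v
    have gK := CORE_dd (V := ℂ) (g := K) (z := s) (hK.contDiffAt.of_le (by norm_cast)) (v * a1)
    have gE := CORE_dd (V := ℂ) (g := E) (z := z) (hE.contDiffAt.of_le (by norm_cast)) (v * a2)
    have lK : HasDerivAt (fun x : ℝ => K (s + x • (v * a1))) (fderiv ℝ K s (v * a1)) 0 := by
      have h3 : HasDerivAt (fun x : ℝ => s + x • (v * a1)) (v * a1) 0 := by
        have := ((hasDerivAt_id (0 : ℝ)).smul_const (v * a1)).const_add s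
        simpa using this
      have h2 : HasFDerivAt K (fderiv ℝ K s) (s + (0 : ℝ) • (v * a1)) := by
        simpa using (hKd s).hasFDerivAt
      exact h2.comp_hasDerivAt (0 : ℝ) h3
    have lE : HasDerivAt (fun x : ℝ => E (z + x • (v * a2))) (fderiv ℝ E z (v * a2)) 0 := by
      have h3 : HasDerivAt (fun x : ℝ => z + x • (v * a2)) (v * a2) 0 := by
        have := ((hasDerivAt_id (0 : ℝ)).smul_const (v * a2)).const_add z
        simpa using this
      have h2 : HasFDerivAt E (fderiv ℝ E z) (z + (0 : ℝ) • (v * a2)) := by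
        simpa using (hEd z).hasFDerivAt
      exact h2.comp_hasDerivAt (0 : ℝ) h3
    have g2 := (lE.mul gK).add (lK.mul gE)
    have heq : (fun x : ℝ => fderiv ℝ h (0 + x • v) v) =
        (fun x : ℝ => E (z + x • (v * a2)) * fderiv ℝ K (s + x • (v * a1)) (v * a1)) +
        (fun x : ℝ => K (s + x • (v * a1)) * fderiv ℝ E (z + x • (v * a2)) (v * a2)) := by
      funext x
      simp only [Pi.add_apply]
      rw [hf, zero_add, smul_mul_assoc, smul_mul_assoc]
    rw [heq] at g1
    have := g1.unique g2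
    rw [this]
    simp
    ring
  rw [hlev, lap]
  have e1 := hdd 1
  have e2 := hdd Complex.I
  have r1 := CORE_rot (g := K) (z := s) a1
  have r2 := CORE_rot (g := E) (z := z) a2
  rw [one_mul, one_mul] at e1
  rw [e1, e2]
  linear_combination (1 / 4) * E z * r1 + (1 / 4) * K s * r2

theorem CORE_gradzero {K : ℂ → ℝ} (hK : ContDiff ℝ ∞ K) (h0 : ∀ s, 0 ≤ K s) {s : ℂ} (hs : K s = 0) : fderiv ℝ K s = 0 := by
  apply IsLocalMin.fderiv_eq_zero
  filter_upwards with t
  rw [hs]
  exact h0 t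

theorem CORE_line {f : ℂ → ℂ} {t v f' : ℂ} (hf : HasDerivAt f f' t) : HasDerivAt (fun x : ℝ => f (t + x • v)) (f' * v) 0 := by
  have h3 : HasDerivAt (fun x : ℝ => t + x • v) v 0 := by
    have := ((hasDerivAt_id (0 : ℝ)).smul_const v).const_add t
    simpa using this
  have h2 : HasDerivAt f f' (t + (0 : ℝ) • v) := by simpa using hf
  have := h2.comp (0 : ℝ) h3
  exact this

theorem CORE_nsq {f : ℝ → ℂ} {f' : ℂ} {x : ℝ} (hf : HasDerivAt f f' x) :
    HasDerivAt (fun x => Complex.normSq (f x)) (2 * (starRingEnd ℂ (f x) * f').re) x := by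
  have h := hf.norm_sq
  have e : (fun x => Complex.normSq (f x)) = (fun x => ‖f x‖ ^ 2) := by
    funext y
    exact Complex.normSq_eq_norm_sq _
  rw [e]
  rw [Complex.inner, mul_comm f'] at h
  exact h

theorem CORE_re {f : ℝ → ℂ} {f' : ℂ} {x : ℝ} (hf : HasDerivAt f f' x) : HasDerivAt (fun x => (f x).re) f'.re x := by
  have := Complex.reCLM.hasFDerivAt.comp_hasDerivAt x hf
  simpa [Function.comp_def] using this

theorem CORE_conj {f : ℝ → ℂ} {f' : ℂ} {x : ℝ} (hf : HasDerivAt f f' x) :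
    HasDerivAt (fun x => starRingEnd ℂ (f x)) (starRingEnd ℂ f') x := by
  have := Complex.conjCLE.toContinuousLinearMap.hasFDerivAt.comp_hasDerivAt x hf
  simpa [Function.comp_def] using this

theorem CORE_smooth {O : Set ℂ} (hO : IsOpen O) {p q : ℂ → ℂ} (hp : DifferentiableOn ℂ p O) (hq : DifferentiableOn ℂ q O) (D : ℝ)
    (hn : ∀ t ∈ O, p t ≠ 0 ∨ q t ≠ 0) :
    ContDiffOn ℝ ∞ (fun t => (1 / 2) * Real.log (Complex.normSq (p t) + Complex.normSq (q t)) / D) O := by
  have hp' : ContDiffOn ℝ ∞ p O := (hp.contDiffOn hO).restrict_scalars ℝ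
  have hq' : ContDiffOn ℝ ∞ q O := (hq.contDiffOn hO).restrict_scalars ℝ
  have e : (fun t => (1 / 2) * Real.log (Complex.normSq (p t) + Complex.normSq (q t)) / D) =
      (fun t => (1 / 2) * Real.log (‖p t‖ ^ 2 + ‖q t‖ ^ 2) / D) := by
    funext t
    rw [Complex.normSq_eq_norm_sq, Complex.normSq_eq_norm_sq]
  rw [e]
  have h1 : ContDiffOn ℝ ∞ (fun t => ‖p t‖ ^ 2 + ‖q t‖ ^ 2) O := (hp'.norm_sq ℝ).add (hq'.norm_sq ℝ)
  have h2 : ∀ t ∈ O, ‖p t‖ ^ 2 + ‖q t‖ ^ 2 ≠ 0 := by
    intro t ht
    rcases hn t ht with h | h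
    · have : 0 < ‖p t‖ ^ 2 := by positivity
      positivity
    · have : 0 < ‖q t‖ ^ 2 := by positivity
      positivity
  have h3 := (contDiffOn_const (c := (1 / 2 : ℝ))).mul (h1.log h2)
  exact h3.div_const D

theorem CORE_lapu {O : Set ℂ} (hO : IsOpen O) {p q : ℂ → ℂ} (hp : DifferentiableOn ℂ p O) (hq : DifferentiableOn ℂ q O) {D : ℝ} (hD : 0 < D)
    (hn : ∀ t ∈ O, p t ≠ 0 ∨ q t ≠ 0) {s : ℂ} (hs : s ∈ O) :
    lap (fun t => (1 / 2) * Real.log (Complex.normSq (p t) + Complex.normSq (q t)) / D) s =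
      (1 / 2) * Complex.normSq (q s * deriv p s - p s * deriv q s) * ((Complex.normSq (p s) + Complex.normSq (q s)) ^ 2)⁻¹ / D := by
  set g : ℂ → ℝ := fun t => (1 / 2) * Real.log (Complex.normSq (p t) + Complex.normSq (q t)) / D with hg
  have hgs := CORE_smooth hO hp hq D hn
  have hN : ∀ t ∈ O, 0 < Complex.normSq (p t) + Complex.normSq (q t) := by
    intro t ht
    rcases hn t ht with h | h
    · have := Complex.normSq_pos.2 h
      have := Complex.normSq_nonneg (q t)
      linarith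
    · have := Complex.normSq_pos.2 h
      have := Complex.normSq_nonneg (p t)
      linarith
  set c : ℂ → ℂ := fun t => starRingEnd ℂ (p t) * deriv p t + starRingEnd ℂ (q t) * deriv q t with hc
  have hfd : ∀ t ∈ O, ∀ v : ℂ, fderiv ℝ g t v = (c t * v).re / ((Complex.normSq (p t) + Complex.normSq (q t)) * D) := by
    intro t ht v
    have hpt : HasDerivAt p (deriv p t) t := (hp.differentiableAt (hO.mem_nhds ht)).hasDerivAt
    have hqt : HasDerivAt q (deriv q t) t := (hq.differentiableAt (hO.mem_nhds ht)).hasDerivAt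
    have h1 := (CORE_nsq (CORE_line (v := v) hpt)).add (CORE_nsq (CORE_line (v := v) hqt))
    have hgd : DifferentiableAt ℝ g t := (hgs.contDiffAt (hO.mem_nhds ht)).differentiableAt (by simp)
    have h3 : HasDerivAt (fun x : ℝ => t + x • v) v 0 := by
      have := ((hasDerivAt_id (0 : ℝ)).smul_const v).const_add t
      simpa using this
    have h2 : HasFDerivAt g (fderiv ℝ g t) (t + (0 : ℝ) • v) := by simpa using hgd.hasFDerivAt
    have h4 := h2.comp_hasDerivAt (0 : ℝ) h3
    have hpos : ((fun x : ℝ => Complex.normSq (p (t + x • v))) + fun x : ℝ => Complex.normSq (q (t + x • v))) 0 ≠ 0 := by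
      have := (hN t ht).ne'
      simpa using this
    have h5 := ((h1.log hpos).const_mul (1 / 2)).div_const D
    have h6 := h4.unique h5
    rw [h6]
    have hne := (hN t ht).ne'
    simp only [Pi.add_apply, zero_smul, add_zero, hc]
    have e : (starRingEnd ℂ (p t) * (deriv p t * v)).re + (starRingEnd ℂ (q t) * (deriv q t * v)).re =
        ((starRingEnd ℂ (p t) * deriv p t + starRingEnd ℂ (q t) * deriv q t) * v).re := by
      rw [← Complex.add_re]
      congr 1
      ring
    rw [← e]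
    field_simp
  have hD2 : ∀ v : ℂ, iteratedFDeriv ℝ 2 g s ![v, v] =
      ((Complex.normSq (deriv p s) + Complex.normSq (deriv q s)) * Complex.normSq v +
        ((starRingEnd ℂ (p s) * deriv (deriv p) s + starRingEnd ℂ (q s) * deriv (deriv q) s) * v ^ 2).re) /
          ((Complex.normSq (p s) + Complex.normSq (q s)) * D) -
        2 * (c s * v).re ^ 2 / ((Complex.normSq (p s) + Complex.normSq (q s)) ^ 2 * D) := by
    intro v
    have g1 := CORE_dd (V := ℂ) (g := g) (z := s) ((hgs.contDiffAt (hO.mem_nhds hs)).of_le (by norm_cast)) v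
    have hpt : HasDerivAt p (deriv p s) s := (hp.differentiableAt (hO.mem_nhds hs)).hasDerivAt
    have hqt : HasDerivAt q (deriv q s) s := (hq.differentiableAt (hO.mem_nhds hs)).hasDerivAt
    have hp2 : HasDerivAt (deriv p) (deriv (deriv p) s) s := ((hp.deriv hO).differentiableAt (hO.mem_nhds hs)).hasDerivAt
    have hq2 : HasDerivAt (deriv q) (deriv (deriv q) s) s := ((hq.deriv hO).differentiableAt (hO.mem_nhds hs)).hasDerivAt
    have lp := CORE_line (v := v) hpt
    have lq := CORE_line (v := v) hqt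
    have lp2 := CORE_line (v := v) hp2
    have lq2 := CORE_line (v := v) hq2
    have h1 := (CORE_nsq lp).add (CORE_nsq lq)
    have h2 := CORE_re ((((CORE_conj lp).mul lp2).add ((CORE_conj lq).mul lq2)).mul_const v)
    have h3 := h1.mul_const D
    have hpos : (fun x : ℝ => ((fun x : ℝ => Complex.normSq (p (s + x • v))) + fun x : ℝ => Complex.normSq (q (s + x • v))) x * D) 0 ≠ 0 := by
      have := (mul_pos (hN s hs) hD).ne'
      simpa using this
    have h4 := h2.div h3 hpos
    have hev : (fun x : ℝ => fderiv ℝ g (s + x • v) v) =ᶠ[𝓝 0]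
        (fun x : ℝ => (c (s + x • v) * v).re / ((Complex.normSq (p (s + x • v)) + Complex.normSq (q (s + x • v))) * D)) := by
      have hcont : ContinuousAt (fun x : ℝ => s + x • v) 0 := by fun_prop
      have : (fun x : ℝ => s + x • v) ⁻¹' O ∈ 𝓝 (0 : ℝ) := by
        apply hcont.preimage_mem_nhds
        simpa using hO.mem_nhds hs
      filter_upwards [this] with x hx
      exact hfd _ hx v
    have g2 := g1.congr_of_eventuallyEq hev.symm
    have h5 : HasDerivAt (fun x : ℝ => (c (s + x • v) * v).re / ((Complex.normSq (p (s + x • v)) + Complex.normSq (q (s + x • v))) * D)) _ 0 := h4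
    have h6 := g2.unique h5
    rw [h6]
    have hne := (hN s hs).ne'
    simp only [Pi.add_apply, zero_smul, add_zero, hc, Pi.mul_apply]
    set A := Complex.normSq (p s) + Complex.normSq (q s) with hA
    have e1 : ((starRingEnd ℂ (deriv p s * v) * deriv p s + starRingEnd ℂ (p s) * (deriv (deriv p) s * v) +
        (starRingEnd ℂ (deriv q s * v) * deriv q s + starRingEnd ℂ (q s) * (deriv (deriv q) s * v))) * v).re =
        (Complex.normSq (deriv p s) + Complex.normSq (deriv q s)) * Complex.normSq v +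
        ((starRingEnd ℂ (p s) * deriv (deriv p) s + starRingEnd ℂ (q s) * deriv (deriv q) s) * v ^ 2).re := by
      simp [Complex.normSq_apply, pow_two]
      ring
    have e2 : 2 * (starRingEnd ℂ (p s) * (deriv p s * v)).re + 2 * (starRingEnd ℂ (q s) * (deriv q s * v)).re =
        2 * ((starRingEnd ℂ (p s) * deriv p s + starRingEnd ℂ (q s) * deriv q s) * v).re := by
      simp
      ring
    rw [e1, e2]
    field_simp
  rw [lap, hD2 1, hD2 Complex.I]
  have hne := (hN s hs).ne'
  have key : (Complex.normSq (deriv p s) + Complex.normSq (deriv q s)) * (Complex.normSq (p s) + Complex.normSq (q s)) -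
      Complex.normSq (c s) = Complex.normSq (q s * deriv p s - p s * deriv q s) := by
    simp [hc, Complex.normSq_apply]
    ring
  have e3 : (c s * 1).re ^ 2 + (c s * Complex.I).re ^ 2 = Complex.normSq (c s) := by
    simp [Complex.normSq_apply]
    ring
  have e4 : (1 : ℂ) ^ 2 = 1 := one_pow 2
  rw [← key, ← e3]
  simp only [Complex.I_sq, one_pow, mul_one, mul_neg, Complex.neg_re, map_one, Complex.normSq_I]
  field_simp
  ring

theorem CORE_slice1 {P : ℂ × ℂ → ℂ} {A : Set (ℂ × ℂ)} (hA : IsOpen A) (hP : DifferentiableOn ℂ P A) {p : ℂ × ℂ} (hp : p ∈ A) :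
    HasDerivAt (fun s => P (s, p.2)) (fderiv ℂ P p (1, 0)) p.1 := by
  have h1 : HasFDerivAt P (fderiv ℂ P p) (p.1, p.2) := (hP.differentiableAt (hA.mem_nhds hp)).hasFDerivAt
  have h2 : HasDerivAt (fun s : ℂ => (s, p.2)) ((1 : ℂ), (0 : ℂ)) p.1 := (hasDerivAt_id p.1).prodMk (hasDerivAt_const p.1 p.2)
  exact h1.comp_hasDerivAt p.1 h2

theorem CORE_slice2 {P : ℂ × ℂ → ℂ} {A : Set (ℂ × ℂ)} (hA : IsOpen A) (hP : DifferentiableOn ℂ P A) {p : ℂ × ℂ} (hp : p ∈ A) :
    HasDerivAt (fun z => P (p.1, z)) (fderiv ℂ P p (0, 1)) p.2 := by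
  have h1 : HasFDerivAt P (fderiv ℂ P p) (p.1, p.2) := (hP.differentiableAt (hA.mem_nhds hp)).hasFDerivAt
  have h2 : HasDerivAt (fun z : ℂ => (p.1, z)) ((0 : ℂ), (1 : ℂ)) p.2 := (hasDerivAt_const p.2 p.1).prodMk (hasDerivAt_id p.2)
  exact h1.comp_hasDerivAt p.2 h2

theorem CORE_cont1 {P : ℂ × ℂ → ℂ} {A : Set (ℂ × ℂ)} (hA : IsOpen A) (hP : DifferentiableOn ℂ P A) :
    ContinuousOn (fun p => fderiv ℂ P p (1, 0)) A := by
  intro p0 hp0
  apply ContinuousAt.continuousWithinAt
  obtain ⟨R, hR, hRA⟩ : ∃ R > 0, closedBall p0 R ⊆ A := Metric.nhds_basis_closedBall.mem_iff.1 (hA.mem_nhds hp0)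
  have hbox : ∀ s z : ℂ, dist s p0.1 ≤ R → dist z p0.2 ≤ R → (s, z) ∈ A := by
    intro s z hs hz
    apply hRA
    rw [mem_closedBall, Prod.dist_eq]
    exact max_le hs hz
  have huc : UniformContinuousOn P (closedBall p0 R) :=
    (isCompact_closedBall p0 R).uniformContinuousOn_of_continuous (hP.continuousOn.mono hRA)
  -- the slice at `p0`
  have hs0 : DifferentiableOn ℂ (fun s => P (s, p0.2)) (ball p0.1 R) := by
    intro s hs
    have := CORE_slice1 hA hP (p := (s, p0.2)) (hbox s p0.2 (mem_ball.1 hs).le (by simpa using hR.le))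
    exact this.differentiableAt.differentiableWithinAt
  have hd0 : ContinuousAt (deriv (fun s => P (s, p0.2))) p0.1 :=
    ((hs0.deriv isOpen_ball).differentiableAt (isOpen_ball.mem_nhds (mem_ball_self hR))).continuousAt
  rw [Metric.continuousAt_iff]
  intro ε hε
  obtain ⟨δ1, hδ1, h1⟩ := Metric.continuousAt_iff.1 hd0 (ε / 2) (half_pos hε)
  obtain ⟨δ2, hδ2, h2⟩ := Metric.uniformContinuousOn_iff.1 huc (ε / 4 * (R / 2)) (by positivity)
  refine ⟨min (min δ1 δ2) (R / 2), by positivity, ?_⟩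
  intro p hp
  have hpd : dist p.1 p0.1 < min (min δ1 δ2) (R / 2) ∧ dist p.2 p0.2 < min (min δ1 δ2) (R / 2) := by
    rw [Prod.dist_eq] at hp
    exact max_lt_iff.1 hp
  have hp1 : dist p.1 p0.1 < R / 2 := lt_of_lt_of_le hpd.1 (min_le_right _ _)
  have hp2 : dist p.2 p0.2 < R / 2 := lt_of_lt_of_le hpd.2 (min_le_right _ _)
  have hA1 : p ∈ A := hbox p.1 p.2 (by linarith) (by linarith)
  have hA2 : (p.1, p0.2) ∈ A := hbox p.1 p0.2 (by linarith) (by simpa using hR.le)
  have d1 := CORE_slice1 hA hP hA1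
  have d2 := CORE_slice1 hA hP hA2
  have d0 := CORE_slice1 hA hP (p := (p0.1, p0.2)) hp0
  have e2 : deriv (fun s => P (s, p0.2)) p.1 = fderiv ℂ P (p.1, p0.2) (1, 0) := d2.deriv
  have e0 : deriv (fun s => P (s, p0.2)) p0.1 = fderiv ℂ P p0 (1, 0) := d0.deriv
  have hb1 : dist (fderiv ℂ P (p.1, p0.2) (1, 0)) (fderiv ℂ P p0 (1, 0)) < ε / 2 := by
    rw [← e2, ← e0]
    exact h1 (lt_of_lt_of_le hpd.1 ((min_le_left _ _).trans (min_le_left _ _)))
  have hb2 : dist (fderiv ℂ P p (1, 0)) (fderiv ℂ P (p.1, p0.2) (1, 0)) ≤ ε / 4 := by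
    have hder : deriv (fun s => P (s, p.2) - P (s, p0.2)) p.1 = fderiv ℂ P p (1, 0) - fderiv ℂ P (p.1, p0.2) (1, 0) := (d1.sub d2).deriv
    rw [dist_eq_norm, ← hder]
    have hdc : DiffContOnCl ℂ (fun s => P (s, p.2) - P (s, p0.2)) (ball p.1 (R / 2)) := by
      have hd : ∀ s ∈ closedBall p.1 (R / 2), DifferentiableAt ℂ (fun s => P (s, p.2) - P (s, p0.2)) s := by
        intro s hs
        have hs' : dist s p0.1 ≤ R := by
          have := dist_triangle s p.1 p0.1
          have := mem_closedBall.1 hs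
          linarith
        have a1 := CORE_slice1 hA hP (p := (s, p.2)) (hbox s p.2 hs' (by linarith))
        have a2 := CORE_slice1 hA hP (p := (s, p0.2)) (hbox s p0.2 hs' (by simpa using hR.le))
        exact a1.differentiableAt.sub a2.differentiableAt
      refine ⟨fun s hs => (hd s (ball_subset_closedBall hs)).differentiableWithinAt, ?_⟩
      rw [closure_ball _ (by positivity)]
      exact fun s hs => (hd s hs).continuousAt.continuousWithinAt
    have hbd : ∀ s ∈ sphere p.1 (R / 2), ‖P (s, p.2) - P (s, p0.2)‖ ≤ ε / 4 * (R / 2) := by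
      intro s hs
      have hs' : dist s p0.1 ≤ R := by
        have := dist_triangle s p.1 p0.1
        have := mem_sphere.1 hs
        linarith
      rw [← dist_eq_norm]
      apply le_of_lt
      apply h2
      · rw [mem_closedBall, Prod.dist_eq]
        exact max_le hs' (by linarith)
      · rw [mem_closedBall, Prod.dist_eq]
        exact max_le hs' (by simpa using hR.le)
      · rw [Prod.dist_eq]
        simp only [dist_self]
        exact max_lt hδ2 (lt_of_lt_of_le hpd.2 ((min_le_left _ _).trans (min_le_right _ _)))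
    have := Complex.norm_deriv_le_of_forall_mem_sphere_norm_le (by positivity : 0 < R / 2) hdc hbd
    calc _ ≤ _ := this
      _ = ε / 4 := by field_simp
  calc dist (fderiv ℂ P p (1, 0)) (fderiv ℂ P p0 (1, 0)) ≤ _ + _ := dist_triangle _ (fderiv ℂ P (p.1, p0.2) (1, 0)) _
    _ < ε := by linarith

theorem CORE_cont2 {P : ℂ × ℂ → ℂ} {A : Set (ℂ × ℂ)} (hA : IsOpen A) (hP : DifferentiableOn ℂ P A) :
    ContinuousOn (fun p => fderiv ℂ P p (0, 1)) A := by
  have hs : IsOpen (Prod.swap ⁻¹' A) := hA.preimage continuous_swap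
  have hsw : Differentiable ℂ (Prod.swap : ℂ × ℂ → ℂ × ℂ) := differentiable_snd.prodMk differentiable_fst
  have hP' : DifferentiableOn ℂ (P ∘ Prod.swap) (Prod.swap ⁻¹' A) := hP.comp hsw.differentiableOn (fun x hx => hx)
  have h1 := CORE_cont1 hs hP'
  have h2 : ContinuousOn (fun p : ℂ × ℂ => fderiv ℂ (P ∘ Prod.swap) p.swap (1, 0)) A := by
    apply h1.comp continuous_swap.continuousOn
    intro p hp
    simpa using hp
  apply h2.congr
  intro p hp
  have hsp : p.swap ∈ Prod.swap ⁻¹' A := by simpa using hp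
  have a1 := CORE_slice1 hs hP' hsp
  have a2 := CORE_slice2 hA hP hp
  simp only [Function.comp_apply, Prod.fst_swap, Prod.snd_swap, Prod.swap_prod_mk] at a1
  exact a2.unique a1

end Pool.Agent.P2
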