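import Pool.Agent.helper90.P2.COREa

set_option autoImplicit false
set_option linter.unusedVariables false

open scoped ContDiff Topology
open MeasureTheory Filter Set Metric

namespace Pool.Agent.P2

theorem CORE_radial {β r : ℝ} (hβ : 0 < β) (hr : 0 < r) :
    ∫⁻ s in ball (0 : ℂ) r, ENNReal.ofReal (‖s‖ ^ (β - 2)) = ENNReal.ofReal (2 * Real.pi * (r ^ β / β)) := by
  have hint : IntegrableOn (fun s : ℂ => ‖s‖ ^ (β - 2)) (ball 0 r) := by
    rw [integrableOn_fun_norm_addHaar volume (f := fun y : ℝ => y ^ (β - 2))]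
    rw [Complex.finrank_real_complex]
    have h1 : IntegrableOn (fun y : ℝ => y ^ (β - 1)) (Ioo 0 r) :=
      (intervalIntegral.integrableOn_Ioo_rpow_iff hr).2 (by linarith)
    apply h1.congr_fun _ measurableSet_Ioo
    intro y hy
    show y ^ (β - 1) = y ^ (2 - 1) • y ^ (β - 2)
    rw [smul_eq_mul, show (2 : ℕ) - 1 = 1 from rfl, pow_one]
    conv_rhs => rw [← Real.rpow_one y, ← Real.rpow_mul hy.1.le, ← Real.rpow_add hy.1]
    congr 1
    ring
  rw [← ofReal_integral_eq_lintegral_ofReal hint (by filter_upwards with s; positivity)]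
  congr 1
  have e1 : ∫ s in ball (0 : ℂ) r, ‖s‖ ^ (β - 2) = ∫ s : ℂ, (Iio r).indicator (fun y : ℝ => y ^ (β - 2)) ‖s‖ := by
    rw [← integral_indicator measurableSet_ball]
    apply integral_congr_ae
    filter_upwards with s
    simp [indicator]
  rw [e1, integral_fun_norm_addHaar volume, Complex.finrank_real_complex]
  have e2 : volume.real (ball (0 : ℂ) 1) = Real.pi := by
    simp [Measure.real, Complex.volume_ball]
  rw [e2]
  have e3 : ∫ y in Ioi (0 : ℝ), y ^ (2 - 1) • (Iio r).indicator (fun y : ℝ => y ^ (β - 2)) y = r ^ β / β := by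
    have e4 : ∀ y ∈ Ioi (0 : ℝ), y ^ (2 - 1) • (Iio r).indicator (fun y : ℝ => y ^ (β - 2)) y = (Iio r).indicator (fun y : ℝ => y ^ (β - 1)) y := by
      intro y hy
      by_cases h : y < r
      · rw [indicator_of_mem (show y ∈ Iio r from h), indicator_of_mem (show y ∈ Iio r from h), smul_eq_mul, show (2 : ℕ) - 1 = 1 from rfl, pow_one]
        conv_lhs => rw [← Real.rpow_one y, ← Real.rpow_mul (le_of_lt hy), ← Real.rpow_add hy]
        congr 1
        ring
      · rw [indicator_of_notMem (show y ∉ Iio r from h), indicator_of_notMem (show y ∉ Iio r from h), smul_zero]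
    rw [setIntegral_congr_fun measurableSet_Ioi e4, integral_indicator measurableSet_Iio, Measure.restrict_restrict measurableSet_Iio]
    have e5 : Iio r ∩ Ioi (0 : ℝ) = Ioo 0 r := by
      ext y
      simp [and_comm]
    rw [e5, ← integral_Ioc_eq_integral_Ioo, ← intervalIntegral.integral_of_le hr.le, integral_rpow (Or.inl (by linarith))]
    rw [sub_add_cancel, Real.zero_rpow hβ.ne', sub_zero]
  rw [e3]
  simp
  ring

theorem CORE_ext {g : ℂ × ℂ → ℝ} {A C : Set (ℂ × ℂ)} (hA : IsOpen A) (hC : IsCompact C) (hCA : C ⊆ A) (hg : ContinuousOn g A)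
    (hz : ∀ p, p ∉ C → g p = 0) : Continuous g := by
  rw [continuous_iff_continuousAt]
  intro p
  by_cases hp : p ∈ A
  · exact hg.continuousAt (hA.mem_nhds hp)
  · have hpC : p ∈ Cᶜ := fun h => hp (hCA h)
    have : g =ᶠ[𝓝 p] fun _ => 0 := by
      filter_upwards [hC.isClosed.isOpen_compl.mem_nhds hpC] with q hq
      exact hz q hq
    exact continuousAt_const.congr this.symm

theorem CORE_int {g : ℂ × ℂ → ℝ} {A C : Set (ℂ × ℂ)} (hA : IsOpen A) (hC : IsCompact C) (hCA : C ⊆ A) (hg : ContinuousOn g A)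
    (hz : ∀ p, p ∉ C → g p = 0) : Integrable g := by
  apply (CORE_ext hA hC hCA hg hz).integrable_of_hasCompactSupport
  apply HasCompactSupport.intro hC
  exact hz

/-- the integral over the slices is continuous -/
theorem CORE_slice {g : ℂ × ℂ → ℝ} {E : ℂ → ℝ} {R : ℝ} (hE : Continuous E) (hs : tsupport E ⊆ ball 0 1)
    (hg : ContinuousOn g (ball 0 R ×ˢ ball 0 1)) : ContinuousOn (fun s => ∫ z, E z * g (s, z)) (ball 0 R) := by
  have hk : IsCompact (tsupport E) := by
    apply Metric.isCompact_of_isClosed_isBounded (isClosed_tsupport E)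
    exact isBounded_ball.subset hs
  apply continuousOn_integral_of_compact_support hk
  · intro p hp
    have hopen : IsOpen (ball (0 : ℂ) R ×ˢ ball (0 : ℂ) 1) := isOpen_ball.prod isOpen_ball
    apply ContinuousAt.continuousWithinAt
    show ContinuousAt (fun p : ℂ × ℂ => E p.2 * g (p.1, p.2)) p
    by_cases h : p.2 ∈ ball (0 : ℂ) 1
    · have h1 : ContinuousAt g p := hg.continuousAt (hopen.mem_nhds ⟨hp.1, h⟩)
      exact (hE.comp continuous_snd).continuousAt.mul h1
    · have h2 : p.2 ∈ (tsupport E)ᶜ := fun h' => h (hs h')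
      have h3 : (fun p : ℂ × ℂ => E p.2 * g (p.1, p.2)) =ᶠ[𝓝 p] fun _ => 0 := by
        have : Prod.snd ⁻¹' (tsupport E)ᶜ ∈ 𝓝 p :=
          continuous_snd.continuousAt.preimage_mem_nhds ((isClosed_tsupport E).isOpen_compl.mem_nhds h2)
        filter_upwards [this] with q hq
        have : E q.2 = 0 := image_eq_zero_of_notMem_tsupport hq
        simp [this]
      exact continuousAt_const.congr h3.symm
  · intro s z _ hz
    rw [image_eq_zero_of_notMem_tsupport hz, zero_mul]

/-- Tonelli, first kind -/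
theorem CORE_tonA {r cL β : ℝ} {U : ℂ × ℂ → ℝ} {c : ℂ → ℝ} (hc : Continuous c) (hc0 : ∀ z, 0 ≤ c z)
    (hU : ContinuousOn U (ball 0 r ×ˢ ball 0 1))
    (hb : ∀ z ∈ ball (0 : ℂ) 1, ∫⁻ s in ball (0 : ℂ) r, ENNReal.ofReal (‖s‖ ^ (-β) * U (s, z)) ≤ ENNReal.ofReal cL) :
    ∫⁻ p in ball (0 : ℂ) r ×ˢ ball (0 : ℂ) 1, ENNReal.ofReal (c p.2 * (‖p.1‖ ^ (-β) * U p)) ≤
      (∫⁻ z in ball (0 : ℂ) 1, ENNReal.ofReal (c z)) * ENNReal.ofReal cL := by
  have hms : MeasurableSet (ball (0 : ℂ) r ×ˢ ball (0 : ℂ) 1) := measurableSet_ball.prod measurableSet_ball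
  have hUm : AEMeasurable U ((volume : Measure (ℂ × ℂ)).restrict (ball 0 r ×ˢ ball 0 1)) := (hU.aestronglyMeasurable hms).aemeasurable
  have hm : AEMeasurable (fun p : ℂ × ℂ => ENNReal.ofReal (c p.2 * (‖p.1‖ ^ (-β) * U p)))
      ((volume : Measure (ℂ × ℂ)).restrict (ball 0 r ×ˢ ball 0 1)) := by
    apply AEMeasurable.ennreal_ofReal
    apply AEMeasurable.mul
    · exact (hc.comp continuous_snd).measurable.aemeasurable
    · apply AEMeasurable.mul _ hUm
      exact ((continuous_fst.norm).measurable.pow_const (-β)).aemeasurable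
  have hrest : ((volume : Measure (ℂ × ℂ)).restrict (ball 0 r ×ˢ ball 0 1)) = (volume.restrict (ball (0 : ℂ) r)).prod (volume.restrict (ball (0 : ℂ) 1)) := by
    rw [Measure.prod_restrict, Measure.volume_eq_prod]
  rw [hrest] at hm ⊢
  rw [lintegral_prod_symm _ hm, ← lintegral_mul_const' _ _ ENNReal.ofReal_ne_top]
  apply setLIntegral_mono_ae' measurableSet_ball
  filter_upwards with z hz
  have e : ∀ s : ℂ, ENNReal.ofReal (c z * (‖s‖ ^ (-β) * U (s, z))) = ENNReal.ofReal (c z) * ENNReal.ofReal (‖s‖ ^ (-β) * U (s, z)) := by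
    intro s
    rw [ENNReal.ofReal_mul (hc0 z)]
  simp only [e]
  rw [lintegral_const_mul' _ _ ENNReal.ofReal_ne_top]
  gcongr
  exact hb z hz

/-- Tonelli, second kind -/
theorem CORE_tonB {r cT β : ℝ} {T : ℂ × ℂ → ℝ} {E : ℂ → ℝ} (hr : 0 < r) (hβ : 0 < β) (hE : Continuous E) (hE0 : ∀ z, 0 ≤ E z)
    (hs : tsupport E ⊆ ball 0 1) (hT : ContinuousOn T (ball 0 (4 * r) ×ˢ ball 0 1)) (hT0 : ∀ p, 0 ≤ T p)
    (hb : ∀ s ∈ ball (0 : ℂ) r, ∫ z, E z * T (s, z) ≤ cT) :
    ∫⁻ p in ball (0 : ℂ) r ×ˢ ball (0 : ℂ) 1, ENNReal.ofReal (‖p.1‖ ^ (β - 2) * (E p.2 * T p)) ≤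
      ENNReal.ofReal (2 * Real.pi * (r ^ β / β)) * ENNReal.ofReal cT := by
  have hms : MeasurableSet (ball (0 : ℂ) r ×ˢ ball (0 : ℂ) 1) := measurableSet_ball.prod measurableSet_ball
  have hsub : ball (0 : ℂ) r ×ˢ ball (0 : ℂ) 1 ⊆ ball (0 : ℂ) (4 * r) ×ˢ ball (0 : ℂ) 1 :=
    prod_mono (ball_subset_ball (by linarith)) subset_rfl
  have hUm : AEMeasurable T ((volume : Measure (ℂ × ℂ)).restrict (ball 0 r ×ˢ ball 0 1)) :=
    ((hT.mono hsub).aestronglyMeasurable hms).aemeasurable
  have hm : AEMeasurable (fun p : ℂ × ℂ => ENNReal.ofReal (‖p.1‖ ^ (β - 2) * (E p.2 * T p)))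
      ((volume : Measure (ℂ × ℂ)).restrict (ball 0 r ×ˢ ball 0 1)) := by
    apply AEMeasurable.ennreal_ofReal
    apply AEMeasurable.mul
    · exact ((continuous_fst.norm).measurable.pow_const (β - 2)).aemeasurable
    · apply AEMeasurable.mul _ hUm
      exact (hE.comp continuous_snd).measurable.aemeasurable
  have hrest : ((volume : Measure (ℂ × ℂ)).restrict (ball 0 r ×ˢ ball 0 1)) = (volume.restrict (ball (0 : ℂ) r)).prod (volume.restrict (ball (0 : ℂ) 1)) := by
    rw [Measure.prod_restrict, Measure.volume_eq_prod]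
  rw [hrest] at hm ⊢
  rw [lintegral_prod _ hm, ← CORE_radial hβ hr, ← lintegral_mul_const' _ _ ENNReal.ofReal_ne_top]
  apply setLIntegral_mono_ae' measurableSet_ball
  filter_upwards with s hsr
  have e : ∀ z : ℂ, ENNReal.ofReal (‖s‖ ^ (β - 2) * (E z * T (s, z))) = ENNReal.ofReal (‖s‖ ^ (β - 2)) * ENNReal.ofReal (E z * T (s, z)) := by
    intro z
    rw [ENNReal.ofReal_mul (by positivity)]
  simp only [e]
  rw [lintegral_const_mul' _ _ ENNReal.ofReal_ne_top]
  gcongr
  have hk : IsCompact (tsupport E) := by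
    apply Metric.isCompact_of_isClosed_isBounded (isClosed_tsupport E)
    exact isBounded_ball.subset hs
  have hcont : Continuous (fun z => E z * T (s, z)) := by
    rw [continuous_iff_continuousAt]
    intro z
    by_cases h : z ∈ ball (0 : ℂ) 1
    · have hopen : IsOpen (ball (0 : ℂ) (4 * r) ×ˢ ball (0 : ℂ) 1) := isOpen_ball.prod isOpen_ball
      have h1 : ContinuousAt T (s, z) := hT.continuousAt (hopen.mem_nhds (hsub ⟨hsr, h⟩))
      have h2 : ContinuousAt (fun z : ℂ => (s, z)) z := by fun_prop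
      have h3 : ContinuousAt (fun z : ℂ => T (s, z)) z := ContinuousAt.comp (f := fun z : ℂ => (s, z)) (g := T) h1 h2
      exact hE.continuousAt.mul h3
    · have h2 : z ∈ (tsupport E)ᶜ := fun h' => h (hs h')
      have h3 : (fun z => E z * T (s, z)) =ᶠ[𝓝 z] fun _ => 0 := by
        filter_upwards [(isClosed_tsupport E).isOpen_compl.mem_nhds h2] with q hq
        have : E q = 0 := image_eq_zero_of_notMem_tsupport hq
        simp [this]
      exact continuousAt_const.congr h3.symm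
  have hint : Integrable (fun z => E z * T (s, z)) := by
    apply hcont.integrable_of_hasCompactSupport
    apply HasCompactSupport.intro hk
    intro z hz
    rw [image_eq_zero_of_notMem_tsupport hz, zero_mul]
  calc ∫⁻ z in ball (0 : ℂ) 1, ENNReal.ofReal (E z * T (s, z)) ≤ ∫⁻ z, ENNReal.ofReal (E z * T (s, z)) := setLIntegral_le_lintegral _ _
    _ = ENNReal.ofReal (∫ z, E z * T (s, z)) :=
      (ofReal_integral_eq_lintegral_ofReal hint (by filter_upwards with z; exact mul_nonneg (hE0 z) (hT0 _))).symm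
    _ ≤ ENNReal.ofReal cT := ENNReal.ofReal_le_ofReal (hb s hsr)

end Pool.Agent.P2
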